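import Pool.Agent.Q176.MK.FL2

/-!
# Project MK, job EX4: weighted first moments to the next order
-/

set_option autoImplicit false

namespace Pool.Agent.Q176.MK

open Pool.Agent.Q291.MK
open Pool.Agent.Q61.MK (X U PB2_X PB2_U PB2_g PB2_inv X_le_U Y_le_U U_nonneg bad_X bad_g split_le
  g_nonneg g_le)

/-! ### the pointwise expansion -/

theorem pt_bd {ε x u : ℝ} (hε : 0 ≤ ε) (hx : -(5 / 4) ≤ x) (hu : u * (2 + 7 / 4 * ε) = x) :
    |q4 u / (2 + ε / 2 + x) - 1 / 2 * (1 - ε / 4 - 5 / 4 * x + 35 / 32 * x ^ 2)| ≤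
      6 * (|x| ^ 3 + ε * |x| + ε ^ 2) := by
  obtain ⟨d, hd⟩ : ∃ d, d = u - x / 2 := ⟨_, rfl⟩
  obtain ⟨y, hy⟩ : ∃ y, y = |x| := ⟨_, rfl⟩
  have hy0 : 0 ≤ y := by rw [hy]; exact abs_nonneg x
  have h2 : 0 < 2 + 7 / 4 * ε := by positivity
  have hu1 : |u| ≤ y / 2 := by
    have h3 : |u| * (2 + 7 / 4 * ε) = y := by rw [← abs_of_pos h2, ← abs_mul, hu, hy]
    have h4 : 0 ≤ |u| * ε := by positivity
    linarith
  have hd1 : |d| ≤ 7 / 16 * (ε * y) := by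
    have h3 : d * (2 + 7 / 4 * ε) = -(7 / 8 * (ε * x)) := by
      rw [hd]
      linear_combination hu
    have h4 : |d| * (2 + 7 / 4 * ε) = 7 / 8 * (ε * y) := by
      rw [← abs_of_pos h2, ← abs_mul, h3, abs_neg, abs_mul, abs_mul, abs_of_nonneg hε, hy,
        abs_of_pos (by norm_num : (0:ℝ) < 7 / 8)]
    have h5 : 0 ≤ |d| * ε := by positivity
    linarith
  have hden : (1 + y) / 3 ≤ 2 + ε / 2 + x := by
    rcases abs_cases x with ⟨h, _⟩ | ⟨h, _⟩ <;> rw [hy, h] <;> linarith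
  have hden0 : 0 < 2 + ε / 2 + x := by
    have : 0 < (1 + y) / 3 := by positivity
    linarith
  rw [← hy, div_sub' hden0.ne', abs_div, abs_of_pos hden0, div_le_iff₀ hden0]
  have e : q4 u - (2 + ε / 2 + x) * (1 / 2 * (1 - ε / 4 - 5 / 4 * x + 35 / 32 * x ^ 2)) =
      -(3 / 2) * d + 15 / 8 * (d * (u + x / 2)) - 35 / 16 * u ^ 3 + 315 / 128 * u ^ 4 + ε ^ 2 / 16 +
        7 / 16 * (ε * x) - 35 / 128 * (ε * x ^ 2) - 35 / 64 * x ^ 3 := by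
    rw [hd]
    unfold q4
    ring
  have b2 : |d * (u + x / 2)| ≤ 7 / 16 * (ε * y) * y := by
    rw [abs_mul]
    refine mul_le_mul hd1 ?_ (abs_nonneg _) (by positivity)
    refine (abs_add_le _ _).trans ?_
    rw [abs_div, abs_of_pos (two_pos : (0:ℝ) < 2), ← hy]
    linarith
  have b3 : |u ^ 3| ≤ y ^ 3 / 8 := by
    rw [abs_pow]
    have := pow_le_pow_left₀ (abs_nonneg u) hu1 3
    linarith [div_pow y 2 3]
  have b4 : |u ^ 4| ≤ y ^ 4 / 16 := by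
    rw [abs_pow]
    have := pow_le_pow_left₀ (abs_nonneg u) hu1 4
    linarith [div_pow y 2 4]
  have b5 : |ε * x| ≤ ε * y := by rw [abs_mul, abs_of_nonneg hε, hy]
  have b6 : |ε * x ^ 2| ≤ ε * y ^ 2 := by rw [abs_mul, abs_of_nonneg hε, abs_pow, hy]
  have b7 : |x ^ 3| ≤ y ^ 3 := by rw [abs_pow, hy]
  have h3 : 2 * ((y ^ 3 + ε * y + ε ^ 2) * (1 + y)) ≤
      6 * (y ^ 3 + ε * y + ε ^ 2) * (2 + ε / 2 + x) := by
    have := mul_le_mul_of_nonneg_left hden (by positivity : 0 ≤ 6 * (y ^ 3 + ε * y + ε ^ 2))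
    linarith
  refine le_trans ?_ h3
  rw [e]
  obtain ⟨p1, p2⟩ := abs_le.1 hd1
  obtain ⟨p3, p4⟩ := abs_le.1 b2
  obtain ⟨p5, p6⟩ := abs_le.1 b3
  obtain ⟨p7, p8⟩ := abs_le.1 b4
  obtain ⟨p9, p10⟩ := abs_le.1 b5
  obtain ⟨p11, p12⟩ := abs_le.1 b6
  obtain ⟨p13, p14⟩ := abs_le.1 b7
  have n1 : 0 ≤ ε * y := by positivity
  have n2 : 0 ≤ ε * y ^ 2 := by positivity
  have n3 : 0 ≤ y ^ 3 := by positivity
  have n4 : 0 ≤ y ^ 4 := by positivity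
  have n5 : 0 ≤ ε ^ 2 := by positivity
  have n6 : 0 ≤ ε ^ 2 * y := by positivity
  rw [abs_le]
  constructor <;> linarith

/-! ### linearity -/

theorem lin6 {a : ℕ → ℝ} (ha : AM a) {φ0 φ1 φ2 φ3 φ4 φ5 : ℕ → ℕ → ℝ} (h0 : PB2 φ0) (h1 : PB2 φ1)
    (h2 : PB2 φ2) (h3 : PB2 φ3) (h4 : PB2 φ4) (h5 : PB2 φ5) (c0 c1 c2 c3 c4 c5 : ℝ) :
    E2 a (fun K L => c0 * φ0 K L + c1 * φ1 K L + c2 * φ2 K L + c3 * φ3 K L + c4 * φ4 K L +
      c5 * φ5 K L) = c0 * E2 a φ0 + c1 * E2 a φ1 + c2 * E2 a φ2 + c3 * E2 a φ3 + c4 * E2 a φ4 +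
      c5 * E2 a φ5 := by
  have k0 := (PB2.const c0).mul h0
  have k1 := (PB2.const c1).mul h1
  have k2 := (PB2.const c2).mul h2
  have k3 := (PB2.const c3).mul h3
  have k4 := (PB2.const c4).mul h4
  have k5 := (PB2.const c5).mul h5
  rw [ha.E2_add ((((k0.add k1).add k2).add k3).add k4) k5, ha.E2_add (((k0.add k1).add k2).add k3) k4,
    ha.E2_add ((k0.add k1).add k2) k3, ha.E2_add (k0.add k1) k2, ha.E2_add k0 k1,
    E2_const_mul, E2_const_mul, E2_const_mul, E2_const_mul, E2_const_mul, E2_const_mul]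

theorem lin3 {a : ℕ → ℝ} (ha : AM a) {φ0 φ1 φ2 : ℕ → ℕ → ℝ} (h0 : PB2 φ0) (h1 : PB2 φ1)
    (h2 : PB2 φ2) (c0 c1 c2 : ℝ) :
    E2 a (fun K L => c0 * φ0 K L + c1 * φ1 K L + c2 * φ2 K L) =
      c0 * E2 a φ0 + c1 * E2 a φ1 + c2 * E2 a φ2 := by
  have k0 := (PB2.const c0).mul h0
  have k1 := (PB2.const c1).mul h1
  have k2 := (PB2.const c2).mul h2
  rw [ha.E2_add (k0.add k1) k2, ha.E2_add k0 k1, E2_const_mul, E2_const_mul, E2_const_mul]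

/-! ### pair moments -/

/-- central moments -/
noncomputable def cm (a : ℕ → ℝ) (j : ℕ) : ℝ := E a (fun k => ((k:ℝ) - mean a) ^ j)

theorem PB2_xy (μ : ℝ) (i j : ℕ) : PB2 (fun K L => ((K:ℝ) - μ) ^ i * ((L:ℝ) - μ) ^ j) :=
  (PB2.fst (Pool.Agent.Q210.MK.PB_c μ i)).mul (PB2.snd (Pool.Agent.Q210.MK.PB_c μ j))

theorem E2_xy {a : ℕ → ℝ} (ha : AM a) (i j : ℕ) :
    E2 a (fun K L => ((K:ℝ) - mean a) ^ i * ((L:ℝ) - mean a) ^ j) = cm a i * cm a j :=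
  ha.E2_mul (Pool.Agent.Q210.MK.PB_c _ i) (Pool.Agent.Q210.MK.PB_c _ j)

theorem cm0 {a : ℕ → ℝ} (ha : AM a) : cm a 0 = 1 := by
  unfold cm
  simp only [pow_zero]
  exact ha.toLaw.E_const 1

theorem cm1 {a : ℕ → ℝ} (ha : AM a) : cm a 1 = 0 := by
  unfold cm
  simp only [pow_one]
  rw [ha.E_sub PB.id (PB.const _), ha.toLaw.E_const]
  exact sub_self _

theorem cm4 (a : ℕ → ℝ) : cm a 4 = k4 a + 3 * vr a ^ 2 := by
  unfold cm k4
  ring

theorem mX4 {a : ℕ → ℝ} (ha : AM a) :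
    E2 a (fun K L => X (mean a) K L ^ 4) = 12 * vr a ^ 2 + 2 * k4 a := by
  have e : (fun K L : ℕ => X (mean a) K L ^ 4) = fun K L : ℕ =>
      1 * (((K:ℝ) - mean a) ^ 4 * ((L:ℝ) - mean a) ^ 0) +
      4 * (((K:ℝ) - mean a) ^ 3 * ((L:ℝ) - mean a) ^ 1) +
      6 * (((K:ℝ) - mean a) ^ 2 * ((L:ℝ) - mean a) ^ 2) +
      4 * (((K:ℝ) - mean a) ^ 1 * ((L:ℝ) - mean a) ^ 3) +
      1 * (((K:ℝ) - mean a) ^ 0 * ((L:ℝ) - mean a) ^ 4) + 0 * (1:ℝ) := by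
    funext K L
    unfold X
    ring
  rw [e, lin6 ha (PB2_xy _ 4 0) (PB2_xy _ 3 1) (PB2_xy _ 2 2) (PB2_xy _ 1 3) (PB2_xy _ 0 4)
    (PB2.const 1), E2_xy ha, E2_xy ha, E2_xy ha, E2_xy ha, E2_xy ha, cm0 ha, cm1 ha, cm4]
  have : cm a 2 = vr a := rfl
  rw [this]
  ring

theorem mX2Y2 {a : ℕ → ℝ} (ha : AM a) :
    E2 a (fun K L => X (mean a) K L ^ 2 * ((K:ℝ) - L) ^ 2) = 4 * vr a ^ 2 + 2 * k4 a := by
  have e : (fun K L : ℕ => X (mean a) K L ^ 2 * ((K:ℝ) - L) ^ 2) = fun K L : ℕ =>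
      1 * (((K:ℝ) - mean a) ^ 4 * ((L:ℝ) - mean a) ^ 0) +
      (-2) * (((K:ℝ) - mean a) ^ 2 * ((L:ℝ) - mean a) ^ 2) +
      1 * (((K:ℝ) - mean a) ^ 0 * ((L:ℝ) - mean a) ^ 4) := by
    funext K L
    unfold X
    ring
  rw [e, lin3 ha (PB2_xy _ 4 0) (PB2_xy _ 2 2) (PB2_xy _ 0 4), E2_xy ha, E2_xy ha, E2_xy ha,
    cm0 ha, cm4]
  have : cm a 2 = vr a := rfl
  rw [this]
  ring

/-- the quotient -/
theorem quot {N Z τ n z e1 e2 e3 t : ℝ} (h1 : |N - n| ≤ e1) (h2 : |Z - z| ≤ e2)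
    (h3 : |n - τ * z| ≤ e3) (h4 : |τ| ≤ t) (hZ : 1 / 2 ≤ Z) : |N / Z - τ| ≤ 2 * (e1 + e3 + t * e2) := by
  have hZ0 : 0 < Z := by linarith
  rw [div_sub' hZ0.ne', abs_div, abs_of_pos hZ0, div_le_iff₀ hZ0]
  have e : N - Z * τ = (N - n) + (n - τ * z) - τ * (Z - z) := by ring
  have b : |τ * (Z - z)| ≤ t * e2 := by
    rw [abs_mul]
    exact mul_le_mul h4 h2 (abs_nonneg _) ((abs_nonneg _).trans h4)
  have h5 : |N - Z * τ| ≤ e1 + e3 + t * e2 := by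
    rw [e]
    obtain ⟨p1, p2⟩ := abs_le.1 h1
    obtain ⟨p3, p4⟩ := abs_le.1 h3
    obtain ⟨p5, p6⟩ := abs_le.1 b
    rw [abs_le]
    constructor <;> linarith
  have h6 : 0 ≤ e1 + e3 + t * e2 := (abs_nonneg _).trans h5
  have h7 : (e1 + e3 + t * e2) * 1 ≤ (e1 + e3 + t * e2) * (2 * Z) :=
    mul_le_mul_of_nonneg_left (by linarith) h6
  linarith

/-- moments of the pair, in terms of `A = 1/√μ` -/
structure Mo (a : ℕ → ℝ) (A G : ℝ) : Prop where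
  am : AM a
  A0 : 0 < A
  A1 : A ≤ 1
  muA : mean a * A ^ 2 = 1
  G1 : 1 ≤ G
  mom : ∀ p : ℕ, p ≤ 8 → A ^ p * E2 a (fun K L => U (mean a) K L ^ p) ≤ G

namespace Mo
variable {a : ℕ → ℝ} {A G : ℝ}

theorem mu0 (h : Mo a A G) : 0 < mean a := by
  by_contra hcon
  have := mul_nonpos_of_nonpos_of_nonneg (not_lt.1 hcon) (sq_nonneg A)
  linarith [h.muA]

theorem mu1 (h : Mo a A G) : 1 ≤ mean a := by
  have h1 : A ^ 2 ≤ 1 := pow_le_one₀ h.A0.le h.A1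
  have h2 : mean a * A ^ 2 ≤ mean a * 1 := mul_le_mul_of_nonneg_left h1 h.mu0.le
  linarith [h.muA]

theorem dv (h : Mo a A G) (x : ℝ) (k : ℕ) : x / mean a ^ k = x * A ^ (2 * k) := by
  have h1 : mean a ^ k * A ^ (2 * k) = 1 := by
    rw [pow_mul, ← mul_pow, h.muA, one_pow]
  rw [div_eq_iff (pow_pos h.mu0 k).ne']
  linear_combination -x * h1

/-- `A^(p+3) E U^p ≤ G A^3` -/
theorem mm (h : Mo a A G) {p q : ℕ} (hp : p ≤ 8) (hq : p + 3 ≤ q) :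
    A ^ q * E2 a (fun K L => U (mean a) K L ^ p) ≤ G * A ^ 3 := by
  have h1 := h.mom p hp
  obtain ⟨r, rfl⟩ := Nat.exists_eq_add_of_le hq
  have e : A ^ (p + 3 + r) * E2 a (fun K L => U (mean a) K L ^ p) =
      A ^ r * (A ^ 3 * (A ^ p * E2 a (fun K L => U (mean a) K L ^ p))) := by ring
  have h2 : A ^ 3 * (A ^ p * E2 a (fun K L => U (mean a) K L ^ p)) ≤ A ^ 3 * G :=
    mul_le_mul_of_nonneg_left h1 (pow_pos h.A0 3).le
  have h3 : A ^ r ≤ 1 := pow_le_one₀ h.A0.le h.A1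
  have h4 : 0 ≤ A ^ 3 * G := mul_nonneg (pow_pos h.A0 3).le (by linarith [h.G1])
  rw [e]
  calc _ ≤ A ^ r * (A ^ 3 * G) := mul_le_mul_of_nonneg_left h2 (pow_pos h.A0 r).le
    _ ≤ 1 * (A ^ 3 * G) := mul_le_mul_of_nonneg_right h3 h4
    _ = _ := by ring

theorem uuX (_ : Mo a A G) (K L : ℕ) : uu (mean a) (K + L) = X (mean a) K L / (2 * mean a + 7 / 4) := rfl

theorem uu_le (h : Mo a A G) (K L : ℕ) : |uu (mean a) (K + L)| ≤ A ^ 2 * U (mean a) K L := by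
  have h0 := h.mu0
  rw [h.uuX, abs_div, abs_of_pos (by positivity : 0 < 2 * mean a + 7 / 4), div_le_iff₀ (by positivity)]
  have h1 := X_le_U (mean a) K L
  have h2 := U_nonneg (mean a) K L
  have h3 : U (mean a) K L * 1 ≤ U (mean a) K L * (A ^ 2 * (2 * mean a + 7 / 4)) := by
    refine mul_le_mul_of_nonneg_left ?_ h2
    have := h.muA
    nlinarith [sq_nonneg A]
  linarith

theorem pbu (h : Mo a A G) : PB2 (fun K L => uu (mean a) (K + L)) :=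
  (PB2_X (mean a)).div_const (2 * mean a + 7 / 4)

theorem pbq (h : Mo a A G) : PB2 (fun K L => q4 (uu (mean a) (K + L))) := by
  have hu := h.pbu
  unfold q4
  exact ((((PB2.const 1).sub ((PB2.const (3 / 2)).mul hu)).add ((PB2.const (15 / 8)).mul (hu.pow 2))).sub
    ((PB2.const (35 / 16)).mul (hu.pow 3))).add ((PB2.const (315 / 128)).mul (hu.pow 4))

theorem err_bd (h : Mo a A G) {φ : ℕ → ℕ → ℝ} {c : ℝ} (hφ : PB2 φ) (hc : 0 ≤ c)
    (hle : ∀ K L, |φ K L| ≤ c * (1 + U (mean a) K L)) :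
    E2 a (fun K L => |φ K L| * (|uu (mean a) (K + L)| ^ 5 + 1 / mean a ^ 2)) ≤ 4 * G * c * A ^ 3 := by
  have hA := h.A0
  have hU := PB2_U (mean a)
  have h1 : E2 a (fun K L => |φ K L| * (|uu (mean a) (K + L)| ^ 5 + 1 / mean a ^ 2)) ≤
      E2 a (fun K L => (c * A ^ 10) * U (mean a) K L ^ 5 + (c * A ^ 10) * U (mean a) K L ^ 6 +
        (c * A ^ 4) * U (mean a) K L ^ 0 + (c * A ^ 4) * U (mean a) K L ^ 1 + 0 * (1:ℝ) + 0 * (1:ℝ)) := by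
    refine h.am.E2_mono (hφ.abs.mul ((h.pbu.abs.pow 5).add (PB2.const _)))
      (((((((PB2.const _).mul (hU.pow 5)).add ((PB2.const _).mul (hU.pow 6))).add
      ((PB2.const _).mul (hU.pow 0))).add ((PB2.const _).mul (hU.pow 1))).add
      ((PB2.const 0).mul (PB2.const 1))).add ((PB2.const 0).mul (PB2.const 1))) fun K L => ?_
    have hU0 := U_nonneg (mean a) K L
    have h2 : |uu (mean a) (K + L)| ^ 5 ≤ (A ^ 2 * U (mean a) K L) ^ 5 :=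
      pow_le_pow_left₀ (abs_nonneg _) (h.uu_le K L) 5
    have h3 : 1 / mean a ^ 2 = A ^ 4 := by rw [h.dv, one_mul]
    rw [h3]
    calc |φ K L| * (|uu (mean a) (K + L)| ^ 5 + A ^ 4) ≤
        (c * (1 + U (mean a) K L)) * ((A ^ 2 * U (mean a) K L) ^ 5 + A ^ 4) :=
          mul_le_mul (hle K L) (by linarith) (by positivity) (by positivity)
      _ = _ := by ring
  refine h1.trans ?_
  rw [lin6 h.am (hU.pow 5) (hU.pow 6) (hU.pow 0) (hU.pow 1) (PB2.const 1) (PB2.const 1)]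
  have b1 := mul_le_mul_of_nonneg_left (h.mm (p := 5) (q := 10) (by norm_num) (by norm_num)) hc
  have b2 := mul_le_mul_of_nonneg_left (h.mm (p := 6) (q := 10) (by norm_num) (by norm_num)) hc
  have b3 := mul_le_mul_of_nonneg_left (h.mm (p := 0) (q := 4) (by norm_num) (by norm_num)) hc
  have b4 := mul_le_mul_of_nonneg_left (h.mm (p := 1) (q := 4) (by norm_num) (by norm_num)) hc
  linarith

theorem main_bd (h : Mo a A G) {C8 : ℝ}
    (htail : ∀ (φ : ℕ → ℕ → ℝ) (B : ℝ), PB2 φ → 0 ≤ B →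
      (∀ K L : ℕ, (K:ℝ) + L < 3 / 4 * mean a → |φ K L| ≤ B) →
      E2 a (fun K L => if (K:ℝ) + L < 3 / 4 * mean a then |φ K L| else 0) ≤
      4 ^ 16 * B * C8 ^ 2 / mean a ^ 8)
    {w : ℕ → ℕ → ℝ} (hw : PB2 w) (hw0 : ∀ K L, 0 ≤ w K L)
    (hw1 : ∀ K L, w K L ≤ 1 + U (mean a) K L ^ 2)
    (hw2 : ∀ K L : ℕ, (K:ℝ) + L < 3 / 4 * mean a → w K L ≤ mean a ^ 2) :
    |E2 a (fun K L => q4 (uu (mean a) (K + L)) * (w K L * (1 / ((K:ℝ) + L + 1 / 2)))) -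
      E2 a (fun K L => (A ^ 2 / 2 * (1 - A ^ 2 / 4 - 5 / 4 * (X (mean a) K L * A ^ 2) +
        35 / 32 * (X (mean a) K L * A ^ 2) ^ 2)) * w K L)| ≤ (36 * G + 25 * 4 ^ 16 * C8 ^ 2) * A ^ 3 := by
  have hA := h.A0
  have hμ := h.mu0
  have hU := PB2_U (mean a)
  have hX := PB2_X (mean a)
  have hA2 : A ^ 2 ≤ 1 := pow_le_one₀ h.A0.le h.A1
  have hXA : PB2 (fun K L => X (mean a) K L * A ^ 2) := hX.mul (PB2.const _)
  have hRp : PB2 (fun K L => A ^ 2 / 2 * (1 - A ^ 2 / 4 - 5 / 4 * (X (mean a) K L * A ^ 2) +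
        35 / 32 * (X (mean a) K L * A ^ 2) ^ 2)) :=
    (PB2.const _).mul (((PB2.const _).sub ((PB2.const _).mul hXA)).add ((PB2.const _).mul (hXA.pow 2)))
  have hP1 : PB2 (fun K L => q4 (uu (mean a) (K + L)) * (w K L * (1 / ((K:ℝ) + L + 1 / 2)))) :=
    h.pbq.mul (hw.mul PB2_inv)
  have hP2 := hRp.mul hw
  rw [← h.am.E2_sub hP1 hP2]
  refine (h.am.abs_E2_le (hP1.sub hP2)).trans ?_
  have e0 : ∀ K L : ℕ, q4 (uu (mean a) (K + L)) * (w K L * (1 / ((K:ℝ) + L + 1 / 2))) -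
      (A ^ 2 / 2 * (1 - A ^ 2 / 4 - 5 / 4 * (X (mean a) K L * A ^ 2) +
        35 / 32 * (X (mean a) K L * A ^ 2) ^ 2)) * w K L =
      (q4 (uu (mean a) (K + L)) * (1 / ((K:ℝ) + L + 1 / 2)) -
      (A ^ 2 / 2 * (1 - A ^ 2 / 4 - 5 / 4 * (X (mean a) K L * A ^ 2) +
        35 / 32 * (X (mean a) K L * A ^ 2) ^ 2))) * w K L := fun K L => by ring
  have hPs : PB2 (fun K L => (6 * A ^ 8) * U (mean a) K L ^ 3 + (6 * A ^ 8) * U (mean a) K L ^ 5 +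
        (6 * A ^ 6) * U (mean a) K L ^ 1 + (6 * A ^ 6) * U (mean a) K L ^ 3 +
        (6 * A ^ 6) * U (mean a) K L ^ 0 + (6 * A ^ 6) * U (mean a) K L ^ 2) :=
    ((((((PB2.const _).mul (hU.pow 3)).add ((PB2.const _).mul (hU.pow 5))).add
      ((PB2.const _).mul (hU.pow 1))).add ((PB2.const _).mul (hU.pow 3))).add
      ((PB2.const _).mul (hU.pow 0))).add ((PB2.const _).mul (hU.pow 2))
  have hsp := split_le h.am (hP1.sub hP2).abs hPs (c := 3 / 4 * mean a)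
    (t := 4 ^ 16 * (25 * mean a ^ 2) * C8 ^ 2 / mean a ^ 8) (fun K L => ?_) (fun K L hg => ?_) ?_
  · refine hsp.trans ?_
    rw [lin6 h.am (hU.pow 3) (hU.pow 5) (hU.pow 1) (hU.pow 3) (hU.pow 0) (hU.pow 2)]
    have b1 := h.mm (p := 3) (q := 8) (by norm_num) (by norm_num)
    have b2 := h.mm (p := 5) (q := 8) (by norm_num) (by norm_num)
    have b3 := h.mm (p := 1) (q := 6) (by norm_num) (by norm_num)
    have b4 := h.mm (p := 3) (q := 6) (by norm_num) (by norm_num)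
    have b5 := h.mm (p := 0) (q := 6) (by norm_num) (by norm_num)
    have b6 := h.mm (p := 2) (q := 6) (by norm_num) (by norm_num)
    have b7 : 4 ^ 16 * (25 * mean a ^ 2) * C8 ^ 2 / mean a ^ 8 ≤ 25 * 4 ^ 16 * C8 ^ 2 * A ^ 3 := by
      rw [h.dv]
      have e : 4 ^ 16 * (25 * mean a ^ 2) * C8 ^ 2 * A ^ (2 * 8) =
          25 * 4 ^ 16 * C8 ^ 2 * ((mean a * A ^ 2) ^ 2 * A ^ 12) := by ring
      rw [e, h.muA, one_pow, one_mul]
      exact mul_le_mul_of_nonneg_left (pow_le_pow_of_le_one hA.le h.A1 (by norm_num)) (by positivity)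
    linarith
  · have := U_nonneg (mean a) K L
    positivity
  · -- good
    rw [e0, abs_mul, abs_of_nonneg (hw0 K L)]
    obtain ⟨x, hx⟩ : ∃ x, x = X (mean a) K L * A ^ 2 := ⟨_, rfl⟩
    have hn : ((K:ℝ) + L + 1 / 2) * A ^ 2 = 2 + A ^ 2 / 2 + x := by
      rw [hx]
      unfold X
      linear_combination 2 * h.muA
    have hx1 : -(5 / 4) ≤ x := by
      have h5 : -(5 / 4) * mean a ≤ X (mean a) K L := by
        unfold X
        linarith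
      have := mul_le_mul_of_nonneg_right h5 (sq_nonneg A)
      rw [hx]
      linarith [h.muA]
    have hu : uu (mean a) (K + L) * (2 + 7 / 4 * A ^ 2) = x := by
      have h5 : 2 + 7 / 4 * A ^ 2 = (2 * mean a + 7 / 4) * A ^ 2 := by linear_combination -2 * h.muA
      have h6 : 2 * mean a + 7 / 4 ≠ 0 := by positivity
      rw [h.uuX, h5, hx]
      field_simp
    have hpt := pt_bd (sq_nonneg A) hx1 hu
    have hden0 : 0 < (K:ℝ) + L + 1 / 2 := by positivity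
    have e1 : q4 (uu (mean a) (K + L)) * (1 / ((K:ℝ) + L + 1 / 2)) =
        A ^ 2 * (q4 (uu (mean a) (K + L)) / (2 + A ^ 2 / 2 + x)) := by
      rw [← hn]
      field_simp
    have e2 : q4 (uu (mean a) (K + L)) * (1 / ((K:ℝ) + L + 1 / 2)) -
      (A ^ 2 / 2 * (1 - A ^ 2 / 4 - 5 / 4 * x + 35 / 32 * x ^ 2)) =
      A ^ 2 * (q4 (uu (mean a) (K + L)) / (2 + A ^ 2 / 2 + x) -
        1 / 2 * (1 - A ^ 2 / 4 - 5 / 4 * x + 35 / 32 * x ^ 2)) := by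
      rw [e1]
      ring
    rw [← hx, e2, abs_mul, abs_of_pos (by positivity : 0 < A ^ 2)]
    have hU0 := U_nonneg (mean a) K L
    have hxU : |x| ≤ A ^ 2 * U (mean a) K L := by
      rw [hx, abs_mul, abs_of_pos (by positivity : 0 < A ^ 2)]
      have := mul_le_mul_of_nonneg_right (X_le_U (mean a) K L) (sq_nonneg A)
      linarith
    have h7 : 6 * (|x| ^ 3 + A ^ 2 * |x| + (A ^ 2) ^ 2) ≤
        6 * ((A ^ 2 * U (mean a) K L) ^ 3 + A ^ 2 * (A ^ 2 * U (mean a) K L) + (A ^ 2) ^ 2) := by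
      have h8 := pow_le_pow_left₀ (abs_nonneg x) hxU 3
      have h9 := mul_le_mul_of_nonneg_left hxU (sq_nonneg A)
      linarith
    calc _ ≤ A ^ 2 * (6 * ((A ^ 2 * U (mean a) K L) ^ 3 + A ^ 2 * (A ^ 2 * U (mean a) K L) +
          (A ^ 2) ^ 2)) * (1 + U (mean a) K L ^ 2) :=
          mul_le_mul (mul_le_mul_of_nonneg_left (hpt.trans h7) (by positivity)) (hw1 K L) (hw0 K L)
            (by positivity)
      _ = _ := by ring
  · refine htail (fun K L => |q4 (uu (mean a) (K + L)) * (w K L * (1 / ((K:ℝ) + L + 1 / 2))) -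
      (A ^ 2 / 2 * (1 - A ^ 2 / 4 - 5 / 4 * (X (mean a) K L * A ^ 2) +
        35 / 32 * (X (mean a) K L * A ^ 2) ^ 2)) * w K L|) (25 * mean a ^ 2) (hP1.sub hP2).abs
        (by positivity) fun K L hb => ?_
    rw [abs_abs, e0, abs_mul, abs_of_nonneg (hw0 K L)]
    refine mul_le_mul ?_ (hw2 K L hb) (hw0 K L) (by norm_num)
    have hX2 := bad_X hb
    have hu1 : |uu (mean a) (K + L)| ≤ 1 := by
      rw [h.uuX, abs_div, abs_of_pos (by positivity : 0 < 2 * mean a + 7 / 4), div_le_one (by positivity)]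
      linarith
    have hx2 : |X (mean a) K L * A ^ 2| ≤ 2 := by
      rw [abs_mul, abs_of_pos (by positivity : 0 < A ^ 2)]
      have := mul_le_mul_of_nonneg_right hX2 (sq_nonneg A)
      linarith [h.muA]
    have hq : |q4 (uu (mean a) (K + L))| ≤ 10 := by
      obtain ⟨v, hv⟩ : ∃ v, v = uu (mean a) (K + L) := ⟨_, rfl⟩
      rw [← hv] at hu1 ⊢
      have p1 : |v ^ 2| ≤ 1 := by rw [abs_pow]; exact pow_le_one₀ (abs_nonneg v) hu1
      have p2 : |v ^ 3| ≤ 1 := by rw [abs_pow]; exact pow_le_one₀ (abs_nonneg v) hu1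
      have p3 : |v ^ 4| ≤ 1 := by rw [abs_pow]; exact pow_le_one₀ (abs_nonneg v) hu1
      obtain ⟨q1, q2⟩ := abs_le.1 hu1
      obtain ⟨q3, q4'⟩ := abs_le.1 p1
      obtain ⟨q5, q6⟩ := abs_le.1 p2
      obtain ⟨q7, q8⟩ := abs_le.1 p3
      unfold q4
      rw [abs_le]
      constructor <;> linarith
    have hinv : |1 / ((K:ℝ) + L + 1 / 2)| ≤ 2 := by
      have h1 : (0 : ℝ) ≤ K := Nat.cast_nonneg K
      have h2 : (0 : ℝ) ≤ L := Nat.cast_nonneg L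
      rw [abs_of_nonneg (by positivity), div_le_iff₀ (by positivity)]
      linarith
    have hR : |A ^ 2 / 2 * (1 - A ^ 2 / 4 - 5 / 4 * (X (mean a) K L * A ^ 2) +
        35 / 32 * (X (mean a) K L * A ^ 2) ^ 2)| ≤ 5 := by
      obtain ⟨v, hv⟩ : ∃ v, v = X (mean a) K L * A ^ 2 := ⟨_, rfl⟩
      rw [← hv] at hx2 ⊢
      have p1 : v ^ 2 ≤ 4 := by
        have := pow_le_pow_left₀ (abs_nonneg v) hx2 2
        rw [sq_abs] at this
        linarith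
      have p0 := sq_nonneg v
      obtain ⟨q1, q2⟩ := abs_le.1 hx2
      have hA20 : 0 ≤ A ^ 2 := by positivity
      have h8 : |1 - A ^ 2 / 4 - 5 / 4 * v + 35 / 32 * v ^ 2| ≤ 10 := by
        rw [abs_le]
        constructor <;> linarith
      rw [abs_mul, abs_of_nonneg (by positivity : 0 ≤ A ^ 2 / 2)]
      have := mul_le_mul (by linarith : A ^ 2 / 2 ≤ 1 / 2) h8 (abs_nonneg _) (by norm_num)
      linarith
    refine (abs_sub _ _).trans ?_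
    rw [abs_mul]
    have := mul_le_mul hq hinv (abs_nonneg _) (by norm_num)
    linarith

end Mo

/-- facts about `ρ = μ / (2 μ + 7/4)` -/
theorem rho_facts {A ρ : ℝ} (hρ : ρ * (2 + 7 / 4 * A ^ 2) = 1) :
    0 < ρ ∧ ρ ≤ 1 / 2 ∧ |ρ - 1 / 2 + 7 / 16 * A ^ 2| ≤ A ^ 4 ∧ |ρ ^ 2 - 1 / 4| ≤ 7 / 16 * A ^ 2 ∧
    |ρ ^ 3 - 1 / 8| ≤ 21 / 64 * A ^ 2 := by
  have hA2 : 0 ≤ A ^ 2 := sq_nonneg A
  have h0 : 0 < ρ := by
    by_contra hcon
    have := mul_nonpos_of_nonpos_of_nonneg (not_lt.1 hcon) (by positivity : 0 ≤ 2 + 7 / 4 * A ^ 2)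
    linarith
  have h1 : ρ ≤ 1 / 2 := by
    have : 0 ≤ ρ * A ^ 2 := by positivity
    linarith
  obtain ⟨δ, hδ⟩ : ∃ δ, δ = 1 / 2 - ρ := ⟨_, rfl⟩
  have hδ0 : 0 ≤ δ := by linarith
  have hδ1 : δ = 7 / 8 * (A ^ 2 * ρ) := by
    rw [hδ]
    linear_combination (-1 / 2) * hρ
  have hAρ : A ^ 2 * ρ ≤ A ^ 2 * (1 / 2) := mul_le_mul_of_nonneg_left h1 hA2
  have hδ2 : δ ≤ 7 / 16 * A ^ 2 := by linarith
  refine ⟨h0, h1, ?_, ?_, ?_⟩
  · have e : ρ - 1 / 2 + 7 / 16 * A ^ 2 = 7 / 8 * (A ^ 2 * δ) := by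
      rw [hδ]
      linear_combination 1 / 2 * hρ
    have h2 : A ^ 2 * δ ≤ A ^ 2 * (7 / 16 * A ^ 2) := mul_le_mul_of_nonneg_left hδ2 hA2
    have h3 : 0 ≤ A ^ 2 * δ := by positivity
    have h4 : 0 ≤ A ^ 4 := by positivity
    have h5 : A ^ 2 * (7 / 16 * A ^ 2) = 7 / 16 * A ^ 4 := by ring
    rw [e, abs_of_nonneg (by positivity)]
    linarith
  · have e : ρ ^ 2 - 1 / 4 = -(δ * (ρ + 1 / 2)) := by rw [hδ]; ring
    have h2 : δ * (ρ + 1 / 2) ≤ δ * 1 := mul_le_mul_of_nonneg_left (by linarith) hδ0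
    rw [e, abs_neg, abs_of_nonneg (by positivity)]
    linarith
  · have e : ρ ^ 3 - 1 / 8 = -(δ * (ρ ^ 2 + ρ / 2 + 1 / 4)) := by rw [hδ]; ring
    have h3 : ρ ^ 2 ≤ 1 / 4 := by nlinarith
    have h2 : δ * (ρ ^ 2 + ρ / 2 + 1 / 4) ≤ δ * (3 / 4) :=
      mul_le_mul_of_nonneg_left (by linarith) hδ0
    rw [e, abs_neg, abs_of_nonneg (by positivity)]
    linarith

theorem abs3 {x y z a b c : ℝ} (hx : |x| ≤ a) (hy : |y| ≤ b) (hz : |z| ≤ c) : |x * y * z| ≤ a * b * c := by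
  rw [abs_mul, abs_mul]
  have ha : 0 ≤ a := (abs_nonneg _).trans hx
  have hb : 0 ≤ b := (abs_nonneg _).trans hy
  exact mul_le_mul (mul_le_mul hx hy (abs_nonneg _) ha) hz (abs_nonneg _) (by positivity)

/-- the denominator -/
theorem zz_bd {A ρ s κ κ4 C3 C4 : ℝ} (hA : 0 < A) (hA1 : A ≤ 1) (hρ : ρ * (2 + 7 / 4 * A ^ 2) = 1)
    (hs0 : 0 ≤ s) (hs1 : s ≤ 1) (hκ : |κ| ≤ C3) (hκ4 : |κ4| ≤ C4) :
    |15 / 4 * ρ ^ 2 * s * A ^ 2 - 35 / 8 * ρ ^ 3 * κ * A ^ 4 + 945 / 32 * ρ ^ 4 * s ^ 2 * A ^ 4 +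
      315 / 64 * ρ ^ 4 * κ4 * A ^ 5 - 15 / 16 * s * A ^ 2| ≤ (4 + C3 + C4) * A ^ 3 := by
  obtain ⟨r0, r1, -, r3, -⟩ := rho_facts hρ
  have hA3 : 0 ≤ A ^ 3 := by positivity
  have hA43 : A ^ 4 ≤ A ^ 3 := pow_le_pow_of_le_one hA.le hA1 (by norm_num)
  have hA53 : A ^ 5 ≤ A ^ 3 := pow_le_pow_of_le_one hA.le hA1 (by norm_num)
  have hs : |s| ≤ 1 := by rw [abs_of_nonneg hs0]; exact hs1
  have hs2 : |s ^ 2| ≤ 1 := by rw [abs_pow]; exact pow_le_one₀ (abs_nonneg s) hs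
  have hC3 : 0 ≤ C3 := (abs_nonneg _).trans hκ
  have hC4 : 0 ≤ C4 := (abs_nonneg _).trans hκ4
  have p3 : |ρ ^ 3| ≤ 1 / 8 := by
    rw [abs_of_pos (by positivity)]
    have := pow_le_pow_left₀ r0.le r1 3
    norm_num at this
    linarith
  have p4 : |ρ ^ 4| ≤ 1 / 16 := by
    rw [abs_of_pos (by positivity)]
    have := pow_le_pow_left₀ r0.le r1 4
    norm_num at this
    linarith
  have a2 : |A ^ 2| ≤ A ^ 2 := by rw [abs_of_nonneg (sq_nonneg A)]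
  have a4 : |A ^ 4| ≤ A ^ 4 := by rw [abs_of_nonneg (by positivity)]
  have a5 : |A ^ 5| ≤ A ^ 5 := by rw [abs_of_nonneg (by positivity)]
  have b1 := abs3 r3 hs a2
  have b2 := abs3 p3 hκ a4
  have b3 := abs3 p4 hs2 a4
  have b4 := abs3 p4 hκ4 a5
  have c1 : 7 / 16 * A ^ 2 * 1 * A ^ 2 = 7 / 16 * A ^ 4 := by ring
  rw [c1] at b1
  have c2 : 1 / 8 * C3 * A ^ 4 ≤ 1 / 8 * C3 * A ^ 3 := mul_le_mul_of_nonneg_left hA43 (by positivity)
  have c4 : 1 / 16 * C4 * A ^ 5 ≤ 1 / 16 * C4 * A ^ 3 := mul_le_mul_of_nonneg_left hA53 (by positivity)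
  have c5 : 0 ≤ C3 * A ^ 3 := by positivity
  have c6 : 0 ≤ C4 * A ^ 3 := by positivity
  have e : 15 / 4 * ρ ^ 2 * s * A ^ 2 - 35 / 8 * ρ ^ 3 * κ * A ^ 4 + 945 / 32 * ρ ^ 4 * s ^ 2 * A ^ 4 +
      315 / 64 * ρ ^ 4 * κ4 * A ^ 5 - 15 / 16 * s * A ^ 2 = 15 / 4 * ((ρ ^ 2 - 1 / 4) * s * A ^ 2) -
      35 / 8 * (ρ ^ 3 * κ * A ^ 4) + 945 / 32 * (ρ ^ 4 * s ^ 2 * A ^ 4) +
      315 / 64 * (ρ ^ 4 * κ4 * A ^ 5) := by ring
  rw [e]
  obtain ⟨x1, x2⟩ := abs_le.1 b1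
  obtain ⟨x3, x4⟩ := abs_le.1 b2
  obtain ⟨x5, x6⟩ := abs_le.1 b3
  obtain ⟨x7, x8⟩ := abs_le.1 b4
  rw [abs_le]
  constructor <;> linarith

/-- the first moment of `X` -/
theorem xa_bd {A ρ s κ κ4 ξ C3 C4 G : ℝ} (hA : 0 < A) (hA1 : A ≤ 1) (hρ : ρ * (2 + 7 / 4 * A ^ 2) = 1)
    (hs0 : 0 ≤ s) (hs1 : s ≤ 1) (hκ : |κ| ≤ C3) (hκ4 : |κ4| ≤ C4) (hξ : |ξ| ≤ G) :
    |-(3 * ρ * s) + 15 / 4 * ρ ^ 2 * κ * A ^ 2 - 105 / 4 * ρ ^ 3 * s ^ 2 * A ^ 2 -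
      35 / 8 * ρ ^ 3 * κ4 * A ^ 3 + 315 / 128 * ρ ^ 4 * ξ * A ^ 3 - (-(3 / 2) * s + (21 / 16 * s +
      15 / 16 * κ - 105 / 32 * s ^ 2) * A ^ 2)| ≤ (12 + 2 * C3 + C4 + G) * A ^ 3 := by
  obtain ⟨r0, r1, r2, r3, r4⟩ := rho_facts hρ
  have hA3 : 0 ≤ A ^ 3 := by positivity
  have hA43 : A ^ 4 ≤ A ^ 3 := pow_le_pow_of_le_one hA.le hA1 (by norm_num)
  have hs : |s| ≤ 1 := by rw [abs_of_nonneg hs0]; exact hs1
  have hs2 : |s ^ 2| ≤ 1 := by rw [abs_pow]; exact pow_le_one₀ (abs_nonneg s) hs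
  have hC3 : 0 ≤ C3 := (abs_nonneg _).trans hκ
  have hC4 : 0 ≤ C4 := (abs_nonneg _).trans hκ4
  have hG : 0 ≤ G := (abs_nonneg _).trans hξ
  have p3 : |ρ ^ 3| ≤ 1 / 8 := by
    rw [abs_of_pos (by positivity)]
    have := pow_le_pow_left₀ r0.le r1 3
    norm_num at this
    linarith
  have p4 : |ρ ^ 4| ≤ 1 / 16 := by
    rw [abs_of_pos (by positivity)]
    have := pow_le_pow_left₀ r0.le r1 4
    norm_num at this
    linarith
  have a0 : |(1 : ℝ)| ≤ 1 := by rw [abs_one]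
  have a2 : |A ^ 2| ≤ A ^ 2 := by rw [abs_of_nonneg (sq_nonneg A)]
  have a3 : |A ^ 3| ≤ A ^ 3 := by rw [abs_of_nonneg hA3]
  have b1 := abs3 r2 hs a0
  have b2 := abs3 r3 hκ a2
  have b3 := abs3 r4 hs2 a2
  have b4 := abs3 p3 hκ4 a3
  have b5 := abs3 p4 hξ a3
  have c2 : 7 / 16 * A ^ 2 * C3 * A ^ 2 = 7 / 16 * C3 * A ^ 4 := by ring
  have c3 : 21 / 64 * A ^ 2 * 1 * A ^ 2 = 21 / 64 * A ^ 4 := by ring
  rw [c2] at b2
  rw [c3] at b3
  have c2' : 7 / 16 * C3 * A ^ 4 ≤ 7 / 16 * C3 * A ^ 3 := mul_le_mul_of_nonneg_left hA43 (by positivity)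
  have c5 : 0 ≤ C3 * A ^ 3 := by positivity
  have c6 : 0 ≤ C4 * A ^ 3 := by positivity
  have c7 : 0 ≤ G * A ^ 3 := by positivity
  have e : -(3 * ρ * s) + 15 / 4 * ρ ^ 2 * κ * A ^ 2 - 105 / 4 * ρ ^ 3 * s ^ 2 * A ^ 2 -
      35 / 8 * ρ ^ 3 * κ4 * A ^ 3 + 315 / 128 * ρ ^ 4 * ξ * A ^ 3 - (-(3 / 2) * s + (21 / 16 * s +
      15 / 16 * κ - 105 / 32 * s ^ 2) * A ^ 2) = -3 * ((ρ - 1 / 2 + 7 / 16 * A ^ 2) * s * 1) +
      15 / 4 * ((ρ ^ 2 - 1 / 4) * κ * A ^ 2) - 105 / 4 * ((ρ ^ 3 - 1 / 8) * s ^ 2 * A ^ 2) -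
      35 / 8 * (ρ ^ 3 * κ4 * A ^ 3) + 315 / 128 * (ρ ^ 4 * ξ * A ^ 3) := by ring
  rw [e]
  obtain ⟨x1, x2⟩ := abs_le.1 b1
  obtain ⟨x3, x4⟩ := abs_le.1 b2
  obtain ⟨x5, x6⟩ := abs_le.1 b3
  obtain ⟨x7, x8⟩ := abs_le.1 b4
  obtain ⟨x9, x10⟩ := abs_le.1 b5
  rw [abs_le]
  constructor <;> linarith

namespace Mo
variable {a : ℕ → ℝ} {A G : ℝ}

/-- the expectation of `q4` -/
theorem e_q (h : Mo a A G) {ρ : ℝ} (hρ : ρ * (2 + 7 / 4 * A ^ 2) = 1)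
    (m2 : E2 a (fun K L => X (mean a) K L ^ 2) = 2 * vr a)
    (m1 : E2 a (fun K L => X (mean a) K L) = 0)
    (m3 : E2 a (fun K L => X (mean a) K L ^ 3) = 2 * k3 a) :
    E2 a (fun K L => q4 (uu (mean a) (K + L))) =
      1 + 15 / 4 * ρ ^ 2 * (vr a * A ^ 2) * A ^ 2 - 35 / 8 * ρ ^ 3 * (k3 a * A ^ 2) * A ^ 4 +
      945 / 32 * ρ ^ 4 * (vr a * A ^ 2) ^ 2 * A ^ 4 + 315 / 64 * ρ ^ 4 * (k4 a * A ^ 3) * A ^ 5 := by
  have hX := PB2_X (mean a)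
  have hr : ∀ K L : ℕ, uu (mean a) (K + L) = ρ * A ^ 2 * X (mean a) K L := by
    intro K L
    have h0 := h.mu0
    have h6 : 2 * mean a + 7 / 4 ≠ 0 := by positivity
    rw [h.uuX, div_eq_iff h6]
    linear_combination -X (mean a) K L * hρ - 2 * X (mean a) K L * ρ * h.muA
  have e : (fun K L : ℕ => q4 (uu (mean a) (K + L))) = fun K L : ℕ =>
      1 * (1:ℝ) + (-(3 / 2) * (ρ * A ^ 2)) * X (mean a) K L +
      (15 / 8 * (ρ * A ^ 2) ^ 2) * X (mean a) K L ^ 2 +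
      (-(35 / 16) * (ρ * A ^ 2) ^ 3) * X (mean a) K L ^ 3 +
      (315 / 128 * (ρ * A ^ 2) ^ 4) * X (mean a) K L ^ 4 + 0 * (1:ℝ) := by
    funext K L
    rw [hr]
    unfold q4
    ring
  rw [e, lin6 h.am (PB2.const 1) hX (hX.pow 2) (hX.pow 3) (hX.pow 4) (PB2.const 1), m1, m2, m3,
    mX4 h.am, h.am.E2_cst]
  ring

theorem e_qX (h : Mo a A G) {ρ : ℝ} (hρ : ρ * (2 + 7 / 4 * A ^ 2) = 1)
    (m1 : E2 a (fun K L => X (mean a) K L) = 0)
    (m2 : E2 a (fun K L => X (mean a) K L ^ 2) = 2 * vr a)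
    (m3 : E2 a (fun K L => X (mean a) K L ^ 3) = 2 * k3 a) :
    E2 a (fun K L => q4 (uu (mean a) (K + L)) * X (mean a) K L) =
      -(3 * ρ * (vr a * A ^ 2)) + 15 / 4 * ρ ^ 2 * (k3 a * A ^ 2) * A ^ 2 -
      105 / 4 * ρ ^ 3 * (vr a * A ^ 2) ^ 2 * A ^ 2 - 35 / 8 * ρ ^ 3 * (k4 a * A ^ 3) * A ^ 3 +
      315 / 128 * ρ ^ 4 * (A ^ 5 * E2 a (fun K L => X (mean a) K L ^ 5)) * A ^ 3 := by
  have hX := PB2_X (mean a)
  have hr : ∀ K L : ℕ, uu (mean a) (K + L) = ρ * A ^ 2 * X (mean a) K L := by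
    intro K L
    have h0 := h.mu0
    have h6 : 2 * mean a + 7 / 4 ≠ 0 := by positivity
    rw [h.uuX, div_eq_iff h6]
    linear_combination -X (mean a) K L * hρ - 2 * X (mean a) K L * ρ * h.muA
  have e : (fun K L : ℕ => q4 (uu (mean a) (K + L)) * X (mean a) K L) = fun K L : ℕ =>
      1 * X (mean a) K L + (-(3 / 2) * (ρ * A ^ 2)) * X (mean a) K L ^ 2 +
      (15 / 8 * (ρ * A ^ 2) ^ 2) * X (mean a) K L ^ 3 +
      (-(35 / 16) * (ρ * A ^ 2) ^ 3) * X (mean a) K L ^ 4 +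
      (315 / 128 * (ρ * A ^ 2) ^ 4) * X (mean a) K L ^ 5 + 0 * (1:ℝ) := by
    funext K L
    rw [hr]
    unfold q4
    ring
  rw [e, lin6 h.am hX (hX.pow 2) (hX.pow 3) (hX.pow 4) (hX.pow 5) (PB2.const 1), m1, m2, m3,
    mX4 h.am]
  ring

end Mo

theorem t_EX4 : P_EA2 → P_EX4 := by
  intro hEA C3 C8 C12 C4 h3 h8 h12 h4
  obtain ⟨D0, hD0, hEA⟩ := hEA
  obtain ⟨G, hG⟩ : ∃ G, G = 512 * (C8 + 1) := ⟨_, rfl⟩
  have hG1 : 1 ≤ G := by rw [hG]; linarith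
  obtain ⟨E0, hE0⟩ : ∃ E0, E0 = 8 * G * D0 + 2 * D0 * C8 ^ 2 := ⟨_, rfl⟩
  obtain ⟨E1, hE1⟩ : ∃ E1, E1 = 36 * G + 25 * 4 ^ 16 * C8 ^ 2 := ⟨_, rfl⟩
  have hE00 : 0 ≤ E0 := by rw [hE0]; positivity
  have hE10 : 0 ≤ E1 := by rw [hE1]; positivity
  obtain ⟨cZ, hcZ⟩ : ∃ cZ, cZ = E0 + (4 + C3 + C4) := ⟨_, rfl⟩
  have hcZ1 : 1 ≤ cZ := by linarith
  refine ⟨2 * ((E0 + E1 + 14 + 2 * C3 + 2 * C4 + G) + (4 + 2 * C3) + (6 + 2 * C3) * cZ),
    10 + 4 * cZ ^ 2, by positivity, by nlinarith, ?_⟩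
  intro a ha hk4 hM
  have hμ10 : 10 ≤ mean a := by nlinarith
  obtain ⟨A, hA, hA1, hμA, f1, f2, f3, f4, hAe⟩ := inv_sqrt (show 1 ≤ mean a by linarith)
  obtain ⟨m1, m2, m3, m4, m5, m6, m7⟩ := bEXPM C3 C8 a ha.toCls (by linarith)
  have ham := ha.toAM
  have hμ0 : 0 < mean a := by linarith
  have hm : Mo a A G := by
    refine ⟨ham, hA, hA1, hμA, hG1, fun p hp => ?_⟩
    have h5 := m1 p hp
    have h6 : A ^ p * √(mean a) ^ p = 1 := by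
      rw [← mul_pow, hAe, one_div, inv_mul_cancel₀ (Real.sqrt_pos.2 hμ0).ne', one_pow]
    have h7 := mul_le_mul_of_nonneg_left h5 (pow_pos hA p).le
    calc A ^ p * E2 a (fun K L => U (mean a) K L ^ p) ≤ A ^ p * (512 * (C8 + 1) * √(mean a) ^ p) := h7
      _ = 512 * (C8 + 1) * (A ^ p * √(mean a) ^ p) := by ring
      _ = G := by rw [h6, mul_one, hG]
  obtain ⟨Z0, hZ0, hex⟩ := hEA C3 C8 h8 a ha.toCls hμ10
  have hA2 : A ^ 2 ≤ 1 := pow_le_one₀ hA.le hA1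
  have hA3 : 0 < A ^ 3 := by positivity
  have hA43 : A ^ 4 ≤ A ^ 3 := pow_le_pow_of_le_one hA.le hA1 (by norm_num)
  have hN : ∀ φ : ℕ → ℕ → ℝ, PB2 φ → (∀ K L, |φ K L| ≤ 2 * (1 + U (mean a) K L)) →
      (∀ K L : ℕ, (K:ℝ) + L < 3 / 4 * mean a → |φ K L| ≤ 2 * mean a) →
      |E2 a (fun K L => I (K + L) * φ K L) / Z0 -
        E2 a (fun K L => q4 (uu (mean a) (K + L)) * φ K L)| ≤ E0 * A ^ 3 := by
    intro φ hφ hφ1 hφ2
    refine (hex φ (2 * mean a) hφ (by positivity) hφ2).trans ?_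
    have h5 := mul_le_mul_of_nonneg_left (hm.err_bd hφ (by norm_num) hφ1) hD0.le
    have h6 : D0 * (2 * mean a) * C8 ^ 2 / mean a ^ 6 ≤ 2 * D0 * C8 ^ 2 * A ^ 3 := by
      rw [hm.dv]
      have e : D0 * (2 * mean a) * C8 ^ 2 * A ^ (2 * 6) = 2 * D0 * C8 ^ 2 * ((mean a * A ^ 2) * A ^ 10) := by
        ring
      rw [e, hμA, one_mul]
      exact mul_le_mul_of_nonneg_left (pow_le_pow_of_le_one hA.le hA1 (by norm_num)) (by positivity)
    rw [hE0]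
    linarith
  -- parameters
  have hv0 := vr_nonneg ham.toLaw
  obtain ⟨s, hs⟩ : ∃ s, s = vr a * A ^ 2 := ⟨_, rfl⟩
  obtain ⟨κ, hκ⟩ : ∃ κ, κ = k3 a * A ^ 2 := ⟨_, rfl⟩
  obtain ⟨κ4, hκ4⟩ : ∃ κ4, κ4 = k4 a * A ^ 3 := ⟨_, rfl⟩
  have hs0 : 0 ≤ s := by rw [hs]; positivity
  have hs1 : s ≤ 1 := by
    rw [hs, ← hμA]
    exact mul_le_mul_of_nonneg_right ha.vr_le (sq_nonneg A)
  have hκb : |κ| ≤ C3 := by
    rw [hκ, abs_mul, abs_of_nonneg (sq_nonneg A)]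
    calc _ ≤ C3 * mean a * A ^ 2 := mul_le_mul_of_nonneg_right ha.k3_le (sq_nonneg A)
      _ = C3 * (mean a * A ^ 2) := by ring
      _ = C3 := by rw [hμA, mul_one]
  have hκ4b : |κ4| ≤ C4 := by
    rw [hκ4, abs_mul, abs_of_pos hA3]
    have h5 := f4 (mean a * √(mean a))
    rw [div_self (by positivity)] at h5
    calc _ ≤ C4 * (mean a * √(mean a)) * A ^ 3 := mul_le_mul_of_nonneg_right hk4 hA3.le
      _ = C4 * (mean a * √(mean a) * A ^ 3) := by ring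
      _ = C4 := by rw [← h5, mul_one]
  obtain ⟨k1', k2'⟩ := abs_le.1 hκb
  have hs20 : 0 ≤ s ^ 2 := sq_nonneg s
  have hs21 : s ^ 2 ≤ 1 := pow_le_one₀ hs0 hs1
  obtain ⟨ρ, hρ⟩ : ∃ ρ, ρ * (2 + 7 / 4 * A ^ 2) = 1 :=
    ⟨1 / (2 + 7 / 4 * A ^ 2), div_mul_cancel₀ 1 (by positivity)⟩
  have m3' : E2 a (fun K L => X (mean a) K L) = 0 := m3
  have m4' : E2 a (fun K L => X (mean a) K L ^ 2) = 2 * vr a := m4
  have m5' : E2 a (fun K L => X (mean a) K L ^ 3) = 2 * k3 a := m5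
  have m7' : E2 a (fun K L => X (mean a) K L * ((K:ℝ) - L) ^ 2) = 2 * k3 a := m7
  have hX := PB2_X (mean a)
  have hUn := U_nonneg (mean a)
  -- denominator
  have hZb : |E2 a (fun K L => I (K + L)) / Z0 - (1 + 15 / 16 * s * A ^ 2)| ≤ cZ * A ^ 3 := by
    have h5 := hN (fun _ _ => 1) (PB2.const 1) (fun K L => by
      rw [abs_one]
      linarith [hUn K L]) (fun K L _ => by rw [abs_one]; linarith)
    simp only [mul_one] at h5
    rw [hm.e_q hρ m4' m3' m5', ← hs, ← hκ, ← hκ4] at h5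
    have h6 := zz_bd hA hA1 hρ hs0 hs1 hκb hκ4b
    obtain ⟨x1, x2⟩ := abs_le.1 h5
    obtain ⟨x3, x4⟩ := abs_le.1 h6
    rw [hcZ, abs_le]
    constructor <;> linarith
  have hZh : 1 / 2 ≤ E2 a (fun K L => I (K + L)) / Z0 := by
    have h5 : cZ * A ^ 3 ≤ 1 / 2 := by
      have h6 : A ^ 3 ≤ A := pow_le_of_le_one hA.le hA1 three_ne_zero
      have h7 : cZ * A ≤ 1 / 2 := by
        have h8 : (2 * cZ * A) ^ 2 ≤ 1 := by
          have : 4 * cZ ^ 2 * A ^ 2 ≤ mean a * A ^ 2 :=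
            mul_le_mul_of_nonneg_right (by linarith) (sq_nonneg A)
          calc (2 * cZ * A) ^ 2 = 4 * cZ ^ 2 * A ^ 2 := by ring
            _ ≤ 1 := by rw [hμA] at this; exact this
        have h9 : 2 * cZ * A ≤ 1 := by
          by_contra hcon
          have := one_lt_pow₀ (not_le.1 hcon) two_ne_zero
          linarith
        linarith
      have := mul_le_mul_of_nonneg_left h6 (by linarith : 0 ≤ cZ)
      linarith
    have h6 : 0 ≤ 15 / 16 * s * A ^ 2 := by positivity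
    obtain ⟨x1, x2⟩ := abs_le.1 hZb
    linarith
  have hEw : ∀ φ : ℕ → ℕ → ℝ, Ew a φ = (E2 a (fun K L => I (K + L) * φ K L) / Z0) /
      (E2 a (fun K L => I (K + L)) / Z0) := by
    intro φ
    unfold Ew
    rw [div_div_div_cancel_right₀ hZ0.ne']
  -- the product with the denominator
  have hcZA : 0 ≤ cZ * A ^ 3 := by positivity
  have hst : ∀ t T : ℝ, |t| ≤ T → |15 / 16 * s * t * A ^ 4| ≤ T * A ^ 3 := by
    intro t T ht
    have hT := (abs_nonneg _).trans ht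
    rw [abs_mul, abs_mul, abs_mul, abs_of_nonneg hs0, abs_of_pos (by norm_num : (0:ℝ) < 15 / 16),
      abs_of_pos (by positivity : 0 < A ^ 4)]
    have h5 : 15 / 16 * s * |t| ≤ 1 * T := mul_le_mul (by linarith) ht (abs_nonneg _) (by norm_num)
    calc _ ≤ 1 * T * A ^ 4 := mul_le_mul_of_nonneg_right h5 (by positivity)
      _ = T * A ^ 4 := by ring
      _ ≤ T * A ^ 3 := mul_le_mul_of_nonneg_left hA43 hT
  refine ⟨?_, ?_, ?_⟩
  · -- X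
    have h5 := hN (xx a) hX (fun K L => by
      have := X_le_U (mean a) K L
      have h6 := hUn K L
      exact this.trans (by linarith)) (fun K L hb => bad_X hb)
    have e1 : E2 a (fun K L => q4 (uu (mean a) (K + L)) * xx a K L) =
        E2 a (fun K L => q4 (uu (mean a) (K + L)) * X (mean a) K L) := rfl
    rw [e1, hm.e_qX hρ m3' m4' m5', ← hs, ← hκ, ← hκ4] at h5
    have hξ : |A ^ 5 * E2 a (fun K L => X (mean a) K L ^ 5)| ≤ G := by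
      rw [abs_mul, abs_of_pos (by positivity : 0 < A ^ 5)]
      refine le_trans (mul_le_mul_of_nonneg_left ?_ (by positivity)) (hm.mom 5 (by norm_num))
      refine (ham.abs_E2_le (hX.pow 5)).trans ?_
      refine ham.E2_mono (hX.pow 5).abs ((PB2_U (mean a)).pow 5) fun K L => ?_
      rw [abs_pow]
      exact pow_le_pow_left₀ (abs_nonneg _) (X_le_U (mean a) K L) 5
    have h6 := xa_bd hA hA1 hρ hs0 hs1 hκb hκ4b hξ
    have h7 : |E2 a (fun K L => I (K + L) * xx a K L) / Z0 - (-(3 / 2) * s + (21 / 16 * s +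
      15 / 16 * κ - 105 / 32 * s ^ 2) * A ^ 2)| ≤ (E0 + (12 + 2 * C3 + C4 + G)) * A ^ 3 := by
      obtain ⟨x1, x2⟩ := abs_le.1 h5
      obtain ⟨x3, x4⟩ := abs_le.1 h6
      rw [abs_le]
      constructor <;> linarith
    obtain ⟨t, ht⟩ : ∃ t, t = 21 / 16 * s + 15 / 16 * κ - 15 / 8 * s ^ 2 := ⟨_, rfl⟩
    have htb : |t| ≤ 4 + C3 := by
      rw [ht, abs_le]
      constructor <;> linarith
    have h8 : |(-(3 / 2) * s + (21 / 16 * s + 15 / 16 * κ - 105 / 32 * s ^ 2) * A ^ 2) -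
        (-(3 / 2) * s + t * A ^ 2) * (1 + 15 / 16 * s * A ^ 2)| ≤ (4 + C3) * A ^ 3 := by
      have e : (-(3 / 2) * s + (21 / 16 * s + 15 / 16 * κ - 105 / 32 * s ^ 2) * A ^ 2) -
        (-(3 / 2) * s + t * A ^ 2) * (1 + 15 / 16 * s * A ^ 2) = -(15 / 16 * s * t * A ^ 4) := by
        rw [ht]
        ring
      rw [e, abs_neg]
      exact hst t _ htb
    have h9 : |-(3 / 2) * s + t * A ^ 2| ≤ 6 + C3 := by
      have h10 : |t * A ^ 2| ≤ (4 + C3) * 1 := by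
        rw [abs_mul, abs_of_nonneg (sq_nonneg A)]
        exact mul_le_mul htb hA2 (sq_nonneg A) (by positivity)
      obtain ⟨x1, x2⟩ := abs_le.1 h10
      rw [abs_le]
      constructor <;> linarith
    have h10 := quot h7 hZb h8 h9 hZh
    rw [← hEw] at h10
    have e2 : Ew a (xx a) + 3 / 2 * (vr a / mean a) - (21 / 16 * (vr a / mean a) +
        15 / 16 * (k3 a / mean a) - 15 / 8 * (vr a / mean a) ^ 2) / mean a =
        Ew a (xx a) - (-(3 / 2) * s + t * A ^ 2) := by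
      rw [f1 (vr a), f1 (k3 a), ← hs, ← hκ, f1, ht]
      ring
    rw [e2, f4]
    refine h10.trans ?_
    have p1 : 0 ≤ C3 * (cZ * A ^ 3) := by positivity
    have p2 : 0 ≤ E1 * A ^ 3 := by positivity
    have p3 : 0 ≤ C3 * A ^ 3 := by positivity
    have p4 : 0 ≤ C4 * A ^ 3 := by positivity
    linarith
  · -- g
    have hgU : ∀ K L : ℕ, gg K L ≤ U (mean a) K L := by
      intro K L
      have k1 : (0:ℝ) ≤ K := Nat.cast_nonneg K
      have k2 : (0:ℝ) ≤ L := Nat.cast_nonneg L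
      unfold gg
      rw [div_le_iff₀ (by positivity)]
      have h6 : |(K:ℝ) - L| ≤ (K:ℝ) + L + 1 / 2 := by
        rw [abs_le]
        constructor <;> linarith
      have h7 := Y_le_U (mean a) K L
      rw [← sq_abs, pow_two]
      exact mul_le_mul h7 h6 (abs_nonneg _) (hUn K L)
    have hgn : ∀ K L : ℕ, 0 ≤ gg K L := fun K L => g_nonneg K L
    have h5 := hN gg PB2_g (fun K L => by
      rw [abs_of_nonneg (hgn K L)]
      have := hgU K L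
      have h6 := hUn K L
      linarith) (fun K L hb => by
      rw [abs_of_nonneg (hgn K L)]
      have : gg K L ≤ mean a := bad_g hb
      linarith)
    have hY : PB2 (fun K L : ℕ => ((K : ℝ) - L) ^ 2) := ((PB2.fst PB.id).sub (PB2.snd PB.id)).pow 2
    have h6 := hm.main_bd m2 hY (fun K L => sq_nonneg _) (fun K L => by
      have := pow_le_pow_left₀ (abs_nonneg _) (Y_le_U (mean a) K L) 2
      rw [sq_abs] at this
      linarith) (fun K L hb => by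
      have k1 : (0:ℝ) ≤ K := Nat.cast_nonneg K
      have k2 : (0:ℝ) ≤ L := Nat.cast_nonneg L
      rw [← sq_abs]
      refine pow_le_pow_left₀ (abs_nonneg _) ?_ 2
      rw [abs_le]
      constructor <;> linarith)
    have e1 : E2 a (fun K L => q4 (uu (mean a) (K + L)) * (((K : ℝ) - L) ^ 2 *
        (1 / ((K:ℝ) + L + 1 / 2)))) = E2 a (fun K L => q4 (uu (mean a) (K + L)) * gg K L) := by
      congr 1
      funext K L
      unfold gg
      rw [mul_one_div]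
    have e2 : E2 a (fun K L => (A ^ 2 / 2 * (1 - A ^ 2 / 4 - 5 / 4 * (X (mean a) K L * A ^ 2) +
        35 / 32 * (X (mean a) K L * A ^ 2) ^ 2)) * ((K : ℝ) - L) ^ 2) =
        s * (1 - A ^ 2 / 4) - 5 / 4 * κ * A ^ 2 + 35 / 16 * s ^ 2 * A ^ 2 + 35 / 32 * κ4 * A ^ 3 := by
      have e : (fun K L : ℕ => (A ^ 2 / 2 * (1 - A ^ 2 / 4 - 5 / 4 * (X (mean a) K L * A ^ 2) +
        35 / 32 * (X (mean a) K L * A ^ 2) ^ 2)) * ((K : ℝ) - L) ^ 2) = fun K L : ℕ =>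
        (A ^ 2 / 2 * (1 - A ^ 2 / 4)) * ((K : ℝ) - L) ^ 2 +
        (-(5 / 8) * A ^ 4) * (X (mean a) K L * ((K : ℝ) - L) ^ 2) +
        (35 / 64 * A ^ 6) * (X (mean a) K L ^ 2 * ((K : ℝ) - L) ^ 2) := by
        funext K L
        ring
      rw [e, lin3 ham hY (hX.mul hY) ((hX.pow 2).mul hY), m6, m7', mX2Y2 ham, hs, hκ, hκ4]
      ring
    rw [e1, e2, ← hE1] at h6
    have hk : |κ4 * A ^ 3| ≤ C4 * A ^ 3 := by
      rw [abs_mul, abs_of_pos hA3]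
      exact mul_le_mul_of_nonneg_right hκ4b hA3.le
    have h7 : |E2 a (fun K L => I (K + L) * gg K L) / Z0 - (s + (-(1 / 4) * s - 5 / 4 * κ +
      35 / 16 * s ^ 2) * A ^ 2)| ≤ (E0 + E1 + 2 * C4) * A ^ 3 := by
      obtain ⟨x1, x2⟩ := abs_le.1 h5
      obtain ⟨x3, x4⟩ := abs_le.1 h6
      obtain ⟨x5, x6⟩ := abs_le.1 hk
      have p4 : 0 ≤ C4 * A ^ 3 := by positivity
      rw [abs_le]
      constructor <;> linarith
    obtain ⟨t, ht⟩ : ∃ t, t = -(1 / 4) * s - 5 / 4 * κ + 5 / 4 * s ^ 2 := ⟨_, rfl⟩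
    have htb : |t| ≤ 2 + 2 * C3 := by
      rw [ht, abs_le]
      constructor <;> linarith
    have h8 : |(s + (-(1 / 4) * s - 5 / 4 * κ + 35 / 16 * s ^ 2) * A ^ 2) -
        (s + t * A ^ 2) * (1 + 15 / 16 * s * A ^ 2)| ≤ (2 + 2 * C3) * A ^ 3 := by
      have e : (s + (-(1 / 4) * s - 5 / 4 * κ + 35 / 16 * s ^ 2) * A ^ 2) -
        (s + t * A ^ 2) * (1 + 15 / 16 * s * A ^ 2) = -(15 / 16 * s * t * A ^ 4) := by
        rw [ht]
        ring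
      rw [e, abs_neg]
      exact hst t _ htb
    have h9 : |s + t * A ^ 2| ≤ 3 + 2 * C3 := by
      have h10 : |t * A ^ 2| ≤ (2 + 2 * C3) * 1 := by
        rw [abs_mul, abs_of_nonneg (sq_nonneg A)]
        exact mul_le_mul htb hA2 (sq_nonneg A) (by positivity)
      obtain ⟨x1, x2⟩ := abs_le.1 h10
      rw [abs_le]
      constructor <;> linarith
    have h10 := quot h7 hZb h8 h9 hZh
    rw [← hEw] at h10
    have e3 : Ew a gg - vr a / mean a - (-(1 / 4) * (vr a / mean a) - 5 / 4 * (k3 a / mean a) +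
        5 / 4 * (vr a / mean a) ^ 2) / mean a = Ew a gg - (s + t * A ^ 2) := by
      rw [f1 (vr a), f1 (k3 a), ← hs, ← hκ, f1, ht]
      ring
    rw [e3, f4]
    refine h10.trans ?_
    have p1 : 0 ≤ C3 * (cZ * A ^ 3) := by positivity
    have p3 : 0 ≤ C3 * A ^ 3 := by positivity
    have p4 : 0 ≤ C4 * A ^ 3 := by positivity
    have p5 : 0 ≤ G * A ^ 3 := by positivity
    linarith
  · -- 1 / (n + 1/2)
    have h5 := hN (fun K L => 1 / ((K:ℝ) + L + 1 / 2)) PB2_inv (fun K L => by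
      have k1 : (0:ℝ) ≤ K := Nat.cast_nonneg K
      have k2 : (0:ℝ) ≤ L := Nat.cast_nonneg L
      have h6 := hUn K L
      rw [abs_of_nonneg (by positivity), div_le_iff₀ (by positivity)]
      have p1 : 0 ≤ U (mean a) K L * ((K:ℝ) + L + 1 / 2) := by positivity
      linarith) (fun K L hb => by
      have k1 : (0:ℝ) ≤ K := Nat.cast_nonneg K
      have k2 : (0:ℝ) ≤ L := Nat.cast_nonneg L
      rw [abs_of_nonneg (by positivity), div_le_iff₀ (by positivity)]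
      have p1 : 0 ≤ mean a * ((K:ℝ) + L) := by positivity
      linarith)
    have h6 := hm.main_bd m2 (PB2.const 1) (fun K L => zero_le_one) (fun K L => by
      have := sq_nonneg (U (mean a) K L)
      linarith) (fun K L hb => one_le_pow₀ (by linarith))
    have e1 : E2 a (fun K L => q4 (uu (mean a) (K + L)) * (1 * (1 / ((K:ℝ) + L + 1 / 2)))) =
        E2 a (fun K L => q4 (uu (mean a) (K + L)) * (1 / ((K:ℝ) + L + 1 / 2))) := by
      congr 1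
      funext K L
      rw [one_mul]
    have e2 : E2 a (fun K L => (A ^ 2 / 2 * (1 - A ^ 2 / 4 - 5 / 4 * (X (mean a) K L * A ^ 2) +
        35 / 32 * (X (mean a) K L * A ^ 2) ^ 2)) * 1) =
        A ^ 2 / 2 - A ^ 4 / 8 + 35 / 32 * s * A ^ 4 := by
      have e : (fun K L : ℕ => (A ^ 2 / 2 * (1 - A ^ 2 / 4 - 5 / 4 * (X (mean a) K L * A ^ 2) +
        35 / 32 * (X (mean a) K L * A ^ 2) ^ 2)) * 1) = fun K L : ℕ =>
        (A ^ 2 / 2 * (1 - A ^ 2 / 4)) * (1:ℝ) + (-(5 / 8) * A ^ 4) * X (mean a) K L +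
        (35 / 64 * A ^ 6) * X (mean a) K L ^ 2 := by
        funext K L
        ring
      rw [e, lin3 ham (PB2.const 1) hX (hX.pow 2), m3', m4', ham.E2_cst, hs]
      ring
    rw [e1, e2, ← hE1] at h6
    have hsA : s * A ^ 4 ≤ 1 * A ^ 4 := mul_le_mul_of_nonneg_right hs1 (by positivity)
    have hsA0 : 0 ≤ s * A ^ 4 := by positivity
    have hA40 : 0 ≤ A ^ 4 := by positivity
    have h7 : |E2 a (fun K L => I (K + L) * (1 / ((K:ℝ) + L + 1 / 2))) / Z0 - A ^ 2 / 2| ≤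
        (E0 + E1 + 2) * A ^ 3 := by
      obtain ⟨x1, x2⟩ := abs_le.1 h5
      obtain ⟨x3, x4⟩ := abs_le.1 h6
      rw [abs_le]
      constructor <;> linarith
    have h8 : |A ^ 2 / 2 - (A ^ 2 / 2) * (1 + 15 / 16 * s * A ^ 2)| ≤ 1 * A ^ 3 := by
      have e : A ^ 2 / 2 - (A ^ 2 / 2) * (1 + 15 / 16 * s * A ^ 2) = -(15 / 32 * (s * A ^ 4)) := by
        ring
      rw [e, abs_neg, abs_of_nonneg (by positivity)]
      linarith
    have h9 : |A ^ 2 / 2| ≤ 1 := by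
      rw [abs_of_nonneg (by positivity)]
      linarith
    have h10 := quot h7 hZb h8 h9 hZh
    rw [← hEw] at h10
    have e3 : Ew a (fun K L => 1 / ((K:ℝ) + L + 1 / 2)) - 1 / (2 * mean a) =
        Ew a (fun K L => 1 / ((K:ℝ) + L + 1 / 2)) - A ^ 2 / 2 := by
      have : 1 / (2 * mean a) = 1 / 2 / mean a := by rw [div_div]
      rw [this, f1]
      ring
    rw [e3, f4]
    refine h10.trans ?_
    have p1 : 0 ≤ C3 * (cZ * A ^ 3) := by positivity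
    have p3 : 0 ≤ C3 * A ^ 3 := by positivity
    have p4 : 0 ≤ C4 * A ^ 3 := by positivity
    have p5 : 0 ≤ G * A ^ 3 := by positivity
    linarith

end Pool.Agent.Q176.MK
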