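import Pool.Agent.Q291.MK.Stm5
import Pool.Agent.Q291.MK.Base

/-!
# Project MK, job FL2: the flow to the next order
-/

set_option autoImplicit false

namespace Pool.Agent.Q176.MK

open Pool.Agent.Q291.MK

/-- One step, in real numbers; `A = 1/√μ`. -/
theorem step_bd {Q μ A s κ μ1 V1 K1 : ℝ} (hQ : 2 ≤ Q) (hA : 0 < A) (hA1 : A ≤ 1) (hμ : μ * A ^ 2 = 1)
    (hs0 : 0 ≤ s) (hs1 : s ≤ 1) (hκ : |κ| ≤ Q) (hm1 : μ / 4 ≤ μ1)
    (h1 : |μ1 - (μ / 2 - 1 / 8 - 5 / 8 * s + 1 / 4 * (1 / 8 + 25 / 16 * s + 35 / 16 * κ -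
      25 / 8 * s ^ 2) * A ^ 2)| ≤ Q * A ^ 3)
    (h2 : |V1 - (μ / 8 + s * μ / 8 + 3 / 32 - 7 / 32 * s - 7 / 32 * κ + 11 / 32 * s ^ 2)| ≤ Q * A)
    (h3 : |K1 - (3 / 32 * (s * μ) + κ * μ / 32)| ≤ Q / A) :
    |V1 / μ1 - ((1 + s) / 4 + (1 / 4 - 1 / 16 * s - 7 / 16 * κ + s ^ 2) * A ^ 2)| ≤ 40 * Q ^ 2 * A ^ 3 ∧
    |K1 / μ1 - (3 / 16 * s + κ / 16)| ≤ 8 * Q ^ 2 * A ∧ |1 / μ1 - 2 * A ^ 2| ≤ 32 * Q * A ^ 4 := by
  have hA2 : 0 < A ^ 2 := by positivity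
  have hQQ : Q ≤ Q ^ 2 / 2 := by nlinarith
  have hQ0 : 0 < Q := by linarith
  have hμ0 : 0 < μ := by
    by_contra hcon
    have := mul_nonpos_of_nonpos_of_nonneg (not_lt.1 hcon) hA2.le
    linarith
  have hμ1 : 0 < μ1 := by linarith
  have hinv : 1 / μ1 ≤ 4 * A ^ 2 := by
    rw [div_le_iff₀ hμ1]
    have := mul_le_mul_of_nonneg_left hm1 (by positivity : 0 ≤ 4 * A ^ 2)
    linarith
  have hA21 : A ^ 2 ≤ A := pow_le_of_le_one hA.le hA1 two_ne_zero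
  have hA31 : A ^ 3 ≤ A := pow_le_of_le_one hA.le hA1 three_ne_zero
  have hA2o : A ^ 2 ≤ 1 := pow_le_one₀ hA.le hA1
  have hA3o : A ^ 3 ≤ 1 := pow_le_one₀ hA.le hA1
  obtain ⟨k1, k2⟩ := abs_le.1 hκ
  have hs2 : s ^ 2 ≤ 1 := pow_le_one₀ hs0 hs1
  have hs20 : 0 ≤ s ^ 2 := sq_nonneg s
  set f : ℝ := 1 / 8 + 25 / 16 * s + 35 / 16 * κ - 25 / 8 * s ^ 2 with hf
  set g : ℝ := 1 / 4 - 1 / 16 * s - 7 / 16 * κ + s ^ 2 with hg
  have hf1 : |f| ≤ 7 * Q := by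
    rw [abs_le]
    constructor <;> linarith
  have hg1 : |g| ≤ 2 * Q := by
    rw [abs_le]
    constructor <;> linarith
  set e1 : ℝ := μ1 - (μ / 2 - 1 / 8 - 5 / 8 * s + 1 / 4 * f * A ^ 2) with he1
  set e2 : ℝ := V1 - (μ / 8 + s * μ / 8 + 3 / 32 - 7 / 32 * s - 7 / 32 * κ + 11 / 32 * s ^ 2) with he2
  set e3 : ℝ := K1 - (3 / 32 * (s * μ) + κ * μ / 32) with he3
  have hμ1e : μ1 = μ / 2 - 1 / 8 - 5 / 8 * s + 1 / 4 * f * A ^ 2 + e1 := by rw [he1]; ring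
  have hV1e : V1 = μ / 8 + s * μ / 8 + 3 / 32 - 7 / 32 * s - 7 / 32 * κ + 11 / 32 * s ^ 2 + e2 := by
    rw [he2]; ring
  have hK1e : K1 = 3 / 32 * (s * μ) + κ * μ / 32 + e3 := by rw [he3]; ring
  -- difference of the means
  have hd : |μ / 2 - μ1| ≤ 4 * Q := by
    have e : μ / 2 - μ1 = 1 / 8 + 5 / 8 * s - 1 / 4 * (f * A ^ 2) - e1 := by rw [hμ1e]; ring
    have a1 : |f * A ^ 2| ≤ 7 * Q := by
      rw [abs_mul, abs_of_pos hA2]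
      have : |f| * A ^ 2 ≤ 7 * Q * 1 := mul_le_mul hf1 hA2o hA2.le (by linarith)
      linarith
    have a2 : |e1| ≤ Q := by
      refine h1.trans ?_
      have : Q * A ^ 3 ≤ Q * 1 := mul_le_mul_of_nonneg_left hA3o hQ0.le
      linarith
    obtain ⟨b1, b2⟩ := abs_le.1 a1
    obtain ⟨b3, b4⟩ := abs_le.1 a2
    rw [e, abs_le]
    constructor <;> linarith
  refine ⟨?_, ?_, ?_⟩
  · have e : V1 / μ1 - ((1 + s) / 4 + g * A ^ 2) =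
        (e2 - (1 + s) / 4 * (1 / 4 * f * A ^ 2 + e1) +
          g * A ^ 2 * (1 / 8 + 5 / 8 * s - 1 / 4 * f * A ^ 2 - e1)) * (1 / μ1) := by
      rw [mul_one_div, eq_div_iff hμ1.ne', sub_mul, div_mul_cancel₀ _ hμ1.ne', hμ1e, hV1e, hg]
      have : (μ / 2) * (1 / 4 - 1 / 16 * s - 7 / 16 * κ + s ^ 2) * A ^ 2 =
        1 / 2 * (1 / 4 - 1 / 16 * s - 7 / 16 * κ + s ^ 2) * (μ * A ^ 2) := by ring
      rw [hμ] at this
      linear_combination -this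
    have a1 : |(1 + s) / 4 * (1 / 4 * f * A ^ 2 + e1)| ≤ 3 / 2 * Q * A := by
      rw [abs_mul, abs_of_nonneg (by linarith : 0 ≤ (1 + s) / 4)]
      have b1 : |1 / 4 * f * A ^ 2 + e1| ≤ 7 / 4 * Q * A + Q * A := by
        refine (abs_add_le _ _).trans (add_le_add ?_ (h1.trans ?_))
        · rw [abs_mul, abs_mul, abs_of_pos hA2, abs_of_pos (by norm_num : (0:ℝ) < 1 / 4)]
          have : |f| * A ^ 2 ≤ 7 * Q * A := mul_le_mul hf1 hA21 hA2.le (by linarith)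
          linarith
        · exact mul_le_mul_of_nonneg_left hA31 (by linarith)
      have b2 : (1 + s) / 4 * |1 / 4 * f * A ^ 2 + e1| ≤ 1 / 2 * (7 / 4 * Q * A + Q * A) :=
        mul_le_mul (by linarith) b1 (abs_nonneg _) (by norm_num)
      have : 0 ≤ Q * A := by positivity
      linarith
    have a2 : |g * A ^ 2 * (1 / 8 + 5 / 8 * s - 1 / 4 * f * A ^ 2 - e1)| ≤ 2 * Q * A * (4 * Q) := by
      rw [abs_mul, abs_mul, abs_of_pos hA2]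
      have e4 : 1 / 8 + 5 / 8 * s - 1 / 4 * f * A ^ 2 - e1 = μ / 2 - μ1 := by rw [hμ1e]; ring
      rw [e4]
      exact mul_le_mul (mul_le_mul hg1 hA21 hA2.le (by linarith)) hd (abs_nonneg _) (by positivity)
    rw [e, abs_mul, abs_of_pos (by positivity : 0 < 1 / μ1)]
    have a3 : |e2 - (1 + s) / 4 * (1 / 4 * f * A ^ 2 + e1) +
          g * A ^ 2 * (1 / 8 + 5 / 8 * s - 1 / 4 * f * A ^ 2 - e1)| ≤ 8 * Q ^ 2 * A + 5 / 2 * (Q * A) := by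
      obtain ⟨c1, c2⟩ := abs_le.1 h2
      obtain ⟨c3, c4⟩ := abs_le.1 a1
      obtain ⟨c5, c6⟩ := abs_le.1 a2
      rw [abs_le]
      constructor <;> linarith
    have a4 : 8 * Q ^ 2 * A + 5 / 2 * (Q * A) ≤ 10 * Q ^ 2 * A := by
      have := mul_le_mul_of_nonneg_right hQQ hA.le
      have h0 : 0 ≤ Q ^ 2 * A := by positivity
      linarith
    calc _ ≤ 10 * Q ^ 2 * A * (4 * A ^ 2) :=
          mul_le_mul (a3.trans a4) hinv (by positivity) (by positivity)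
      _ = _ := by ring
  · have e : K1 / μ1 - (3 / 16 * s + κ / 16) = (e3 + (3 / 16 * s + κ / 16) * (μ / 2 - μ1)) * (1 / μ1) := by
      rw [mul_one_div, eq_div_iff hμ1.ne', sub_mul, div_mul_cancel₀ _ hμ1.ne', hK1e]
      ring
    rw [e, abs_mul, abs_of_pos (by positivity : 0 < 1 / μ1)]
    have a1 : |(3 / 16 * s + κ / 16) * (μ / 2 - μ1)| ≤ Q / 4 * (4 * Q) := by
      rw [abs_mul]
      refine mul_le_mul ?_ hd (abs_nonneg _) (by linarith)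
      rw [abs_le]
      constructor <;> linarith
    have a2 : Q ^ 2 ≤ Q ^ 2 / A := by
      rw [le_div_iff₀ hA]
      exact mul_le_of_le_one_right (sq_nonneg Q) hA1
    have a3 : Q / A ≤ Q ^ 2 / A / 2 := by
      have := div_le_div_of_nonneg_right hQQ hA.le
      refine this.trans (le_of_eq ?_)
      ring
    have a4 : |e3 + (3 / 16 * s + κ / 16) * (μ / 2 - μ1)| ≤ 3 / 2 * (Q ^ 2 / A) := by
      refine (abs_add_le _ _).trans ?_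
      linarith
    calc _ ≤ 3 / 2 * (Q ^ 2 / A) * (4 * A ^ 2) :=
          mul_le_mul a4 hinv (by positivity) (by positivity)
      _ = 6 * Q ^ 2 * A := by field_simp; ring
      _ ≤ _ := by
          have : 0 ≤ Q ^ 2 * A := by positivity
          linarith
  · have e : 1 / μ1 - 2 * A ^ 2 = 2 * A ^ 2 * (μ / 2 - μ1) * (1 / μ1) := by
      have : 2 * A ^ 2 * (μ / 2 - μ1) = 1 - 2 * A ^ 2 * μ1 := by linear_combination hμ
      rw [this]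
      field_simp
    rw [e, abs_mul, abs_mul, abs_of_pos (by positivity : 0 < 1 / μ1), abs_of_pos (by positivity : 0 < 2 * A ^ 2)]
    calc _ ≤ 2 * A ^ 2 * (4 * Q) * (4 * A ^ 2) :=
          mul_le_mul (mul_le_mul_of_nonneg_left hd (by positivity)) hinv (by positivity) (by positivity)
      _ = _ := by ring

/-- The two-loop coefficient. -/
theorem coef_id (s κ : ℝ) :
    (1 / 8 + 25 / 16 * s + 35 / 16 * κ - 25 / 8 * s ^ 2) / 2 -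
      3 * (1 / 4 - 1 / 16 * s - 7 / 16 * κ + s ^ 2) + 16 / 15 +
      2 * (-(3 / 8) + 27 / 16 * ((1 + s) / 4) + 49 / 16 * (3 / 16 * s + κ / 16) -
        41 / 8 * ((1 + s) / 4) ^ 2) =
      -(229 / 128) * (s - 1 / 3) + 357 / 128 * (κ - 1 / 15) - 333 / 64 * (s - 1 / 3) ^ 2 := by
  ring

theorem coef_bd {s κ : ℝ} (hs0 : 0 ≤ s) (hs1 : s ≤ 1) :
    |-(229 / 128) * (s - 1 / 3) + 357 / 128 * (κ - 1 / 15) - 333 / 64 * (s - 1 / 3) ^ 2| ≤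
      6 * (|s - 1 / 3| + |κ - 1 / 15|) := by
  have h1 : |s - 1 / 3| ≤ 2 / 3 := by
    rw [abs_le]
    constructor <;> linarith
  have h2 : (s - 1 / 3) ^ 2 ≤ 2 / 3 * |s - 1 / 3| := by
    rw [← sq_abs, pow_two]
    exact mul_le_mul_of_nonneg_right h1 (abs_nonneg _)
  have h3 : 0 ≤ (s - 1 / 3) ^ 2 := sq_nonneg _
  have h4 := le_abs_self (s - 1 / 3)
  have h5 := neg_abs_le (s - 1 / 3)
  have h6 := le_abs_self (κ - 1 / 15)
  have h7 := neg_abs_le (κ - 1 / 15)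
  rw [abs_le]
  constructor <;> linarith

/-- Two steps. -/
theorem two_bd {Q μ A s κ μ1 s1 κ1 A1 μ2 s2 κ2 : ℝ} (hQ : 2 ≤ Q) (hA : 0 < A) (hA1 : A ≤ 1)
    (hs0 : 0 ≤ s) (hs1 : s ≤ 1) (hκ : |κ| ≤ Q)
    (hs10 : 0 ≤ s1) (hs11 : s1 ≤ 1) (hκ1 : |κ1| ≤ Q) (hB0 : 0 < A1) (hB : A1 ≤ 2 * A)
    (h1 : |μ1 - (μ / 2 - 1 / 8 - 5 / 8 * s + 1 / 4 * (1 / 8 + 25 / 16 * s + 35 / 16 * κ -
      25 / 8 * s ^ 2) * A ^ 2)| ≤ Q * A ^ 3)
    (h2 : |s1 - ((1 + s) / 4 + (1 / 4 - 1 / 16 * s - 7 / 16 * κ + s ^ 2) * A ^ 2)| ≤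
      40 * Q ^ 2 * A ^ 3)
    (h3 : |κ1 - (3 / 16 * s + κ / 16)| ≤ 8 * Q ^ 2 * A) (h4 : |A1 ^ 2 - 2 * A ^ 2| ≤ 32 * Q * A ^ 4)
    (k1 : |μ2 - (μ1 / 2 - 1 / 8 - 5 / 8 * s1 + 1 / 4 * (1 / 8 + 25 / 16 * s1 + 35 / 16 * κ1 -
      25 / 8 * s1 ^ 2) * A1 ^ 2)| ≤ Q * A1 ^ 3)
    (k2 : |s2 - ((1 + s1) / 4 + (1 / 4 - 1 / 16 * s1 - 7 / 16 * κ1 + s1 ^ 2) * A1 ^ 2)| ≤
      40 * Q ^ 2 * A1 ^ 3)
    (k3 : |κ2 - (3 / 16 * s1 + κ1 / 16)| ≤ 8 * Q ^ 2 * A1) :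
    |(4 * μ2 - 2 * s2) - (μ - 2 * s) + 2 + 16 / 15 * A ^ 2| ≤
      2000 * Q ^ 2 * ((|s - 1 / 3| + |κ - 1 / 15|) * A ^ 2 + A ^ 3) ∧
    |s2 - 1 / 3| ≤ |s - 1 / 3| / 16 + 2000 * Q ^ 2 * A ^ 2 ∧
    |κ2 - 1 / 15| ≤ |κ - 1 / 15| / 256 + |s - 1 / 3| / 16 + 2000 * Q ^ 2 * A := by
  have hQ0 : 0 < Q := by linarith
  have hQQ : Q ≤ Q ^ 2 / 2 := by nlinarith
  have hA2 : 0 < A ^ 2 := by positivity
  have hA3 : 0 < A ^ 3 := by positivity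
  have hA21 : A ^ 2 ≤ A := pow_le_of_le_one hA.le hA1 two_ne_zero
  have hA31 : A ^ 3 ≤ A := pow_le_of_le_one hA.le hA1 three_ne_zero
  have hA32 : A ^ 3 ≤ A ^ 2 := pow_le_pow_of_le_one hA.le hA1 (by norm_num)
  have hA43 : A ^ 4 ≤ A ^ 3 := pow_le_pow_of_le_one hA.le hA1 (by norm_num)
  have hB2 : A1 ^ 2 ≤ 4 * A ^ 2 := by
    have := pow_le_pow_left₀ hB0.le hB 2
    linarith [mul_pow 2 A 2]
  have hB3 : A1 ^ 3 ≤ 8 * A ^ 3 := by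
    have := pow_le_pow_left₀ hB0.le hB 3
    linarith [mul_pow 2 A 3]
  obtain ⟨x1, x2⟩ := abs_le.1 hκ
  obtain ⟨x3, x4⟩ := abs_le.1 hκ1
  have hs2' : s ^ 2 ≤ 1 := pow_le_one₀ hs0 hs1
  have hs12 : s1 ^ 2 ≤ 1 := pow_le_one₀ hs10 hs11
  have hs20 : 0 ≤ s ^ 2 := sq_nonneg s
  have hs120 : 0 ≤ s1 ^ 2 := sq_nonneg s1
  -- names
  obtain ⟨g, hg⟩ : ∃ g, g = 1 / 4 - 1 / 16 * s - 7 / 16 * κ + s ^ 2 := ⟨_, rfl⟩
  obtain ⟨g1, hg1⟩ : ∃ g1, g1 = 1 / 4 - 1 / 16 * s1 - 7 / 16 * κ1 + s1 ^ 2 := ⟨_, rfl⟩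
  obtain ⟨f, hf⟩ : ∃ f, f = 1 / 8 + 25 / 16 * s + 35 / 16 * κ - 25 / 8 * s ^ 2 := ⟨_, rfl⟩
  obtain ⟨f1, hf1⟩ : ∃ f1, f1 = 1 / 8 + 25 / 16 * s1 + 35 / 16 * κ1 - 25 / 8 * s1 ^ 2 := ⟨_, rfl⟩
  have bg : |g| ≤ 2 * Q := by rw [hg, abs_le]; constructor <;> linarith
  have bg1 : |g1| ≤ 2 * Q := by rw [hg1, abs_le]; constructor <;> linarith
  have bh1 : |f1 - 2 * g1| ≤ 11 * Q := by rw [hf1, hg1, abs_le]; constructor <;> linarith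
  rw [← hg] at h2
  rw [← hf] at h1
  rw [← hf1] at k1
  rw [← hg1] at k2
  obtain ⟨e1, he1⟩ : ∃ e1, e1 = μ1 - (μ / 2 - 1 / 8 - 5 / 8 * s + 1 / 4 * f * A ^ 2) := ⟨_, rfl⟩
  obtain ⟨e2, he2⟩ : ∃ e2, e2 = s1 - ((1 + s) / 4 + g * A ^ 2) := ⟨_, rfl⟩
  obtain ⟨e3, he3⟩ : ∃ e3, e3 = κ1 - (3 / 16 * s + κ / 16) := ⟨_, rfl⟩
  obtain ⟨ω, hω⟩ : ∃ ω, ω = A1 ^ 2 - 2 * A ^ 2 := ⟨_, rfl⟩
  obtain ⟨d1, hd1⟩ : ∃ d1, d1 = μ2 - (μ1 / 2 - 1 / 8 - 5 / 8 * s1 + 1 / 4 * f1 * A1 ^ 2) := ⟨_, rfl⟩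
  obtain ⟨d2, hd2⟩ : ∃ d2, d2 = s2 - ((1 + s1) / 4 + g1 * A1 ^ 2) := ⟨_, rfl⟩
  obtain ⟨d3, hd3⟩ : ∃ d3, d3 = κ2 - (3 / 16 * s1 + κ1 / 16) := ⟨_, rfl⟩
  rw [← he1] at h1
  rw [← he2] at h2
  rw [← he3] at h3
  rw [← hω] at h4
  rw [← hd1] at k1
  rw [← hd2] at k2
  rw [← hd3] at k3
  have hQA3 : 0 ≤ Q ^ 2 * A ^ 3 := by positivity
  have hQA2 : 0 ≤ Q ^ 2 * A ^ 2 := by positivity
  have hQA1 : 0 ≤ Q ^ 2 * A := by positivity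
  have hQQA3 : Q * A ^ 3 ≤ Q ^ 2 * A ^ 3 / 2 := by
    have := mul_le_mul_of_nonneg_right hQQ hA3.le
    linarith
  have hQQA2 : Q * A ^ 2 ≤ Q ^ 2 * A ^ 2 / 2 := by
    have := mul_le_mul_of_nonneg_right hQQ hA2.le
    linarith
  have hQ32 : Q ^ 2 * A ^ 3 ≤ Q ^ 2 * A ^ 2 := mul_le_mul_of_nonneg_left hA32 (by positivity)
  have hQ21 : Q ^ 2 * A ^ 2 ≤ Q ^ 2 * A := mul_le_mul_of_nonneg_left hA21 (by positivity)
  -- bounds for the errors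
  have b1 : |e1| ≤ Q ^ 2 * A ^ 3 / 2 := h1.trans hQQA3
  have c1 : |d1| ≤ 4 * (Q ^ 2 * A ^ 3) := by
    refine k1.trans ?_
    have := mul_le_mul_of_nonneg_left hB3 hQ0.le
    linarith
  have c2 : |d2| ≤ 320 * (Q ^ 2 * A ^ 3) := by
    refine k2.trans ?_
    have := mul_le_mul_of_nonneg_left hB3 (by positivity : 0 ≤ 40 * Q ^ 2)
    linarith
  have c3 : |d3| ≤ 16 * (Q ^ 2 * A) := by
    refine k3.trans ?_
    have := mul_le_mul_of_nonneg_left hB (by positivity : 0 ≤ 8 * Q ^ 2)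
    linarith
  have bgA : |g * A ^ 2| ≤ Q ^ 2 * A ^ 2 := by
    rw [abs_mul, abs_of_pos hA2]
    have := mul_le_mul_of_nonneg_right bg hA2.le
    linarith
  have bgB : |g1 * A1 ^ 2| ≤ 4 * (Q ^ 2 * A ^ 2) := by
    rw [abs_mul, abs_of_nonneg (sq_nonneg A1)]
    have : |g1| * A1 ^ 2 ≤ 2 * Q * (4 * A ^ 2) := mul_le_mul bg1 hB2 (sq_nonneg _) (by positivity)
    linarith
  -- the variation of the coefficient
  have bs1 : |s1 - (1 + s) / 4| ≤ 41 * (Q ^ 2 * A) := by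
    have e : s1 - (1 + s) / 4 = g * A ^ 2 + e2 := by rw [he2]; ring
    rw [e]
    refine (abs_add_le _ _).trans ?_
    linarith
  have bss : |s1 ^ 2 - ((1 + s) / 4) ^ 2| ≤ 62 * (Q ^ 2 * A) := by
    have e : s1 ^ 2 - ((1 + s) / 4) ^ 2 = (s1 - (1 + s) / 4) * (s1 + (1 + s) / 4) := by ring
    rw [e, abs_mul]
    have h5 : |s1 + (1 + s) / 4| ≤ 3 / 2 := by
      rw [abs_of_nonneg (by linarith)]
      linarith
    have := mul_le_mul bs1 h5 (abs_nonneg _) (by positivity)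
    linarith
  obtain ⟨Δ, hΔ⟩ : ∃ Δ, Δ = 27 / 16 * (s1 - (1 + s) / 4) + 49 / 16 * e3 -
    41 / 8 * (s1 ^ 2 - ((1 + s) / 4) ^ 2) := ⟨_, rfl⟩
  have bΔ : |Δ| ≤ 412 * (Q ^ 2 * A) := by
    obtain ⟨y1, y2⟩ := abs_le.1 bs1
    obtain ⟨y3, y4⟩ := abs_le.1 bss
    obtain ⟨y5, y6⟩ := abs_le.1 h3
    rw [hΔ, abs_le]
    constructor <;> linarith
  have bΔA : |Δ * A ^ 2| ≤ 412 * (Q ^ 2 * A ^ 3) := by
    rw [abs_mul, abs_of_pos hA2]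
    have := mul_le_mul_of_nonneg_right bΔ hA2.le
    calc _ ≤ 412 * (Q ^ 2 * A) * A ^ 2 := this
      _ = _ := by ring
  have bω : |(f1 - 2 * g1) * ω| ≤ 352 * (Q ^ 2 * A ^ 3) := by
    rw [abs_mul]
    calc _ ≤ 11 * Q * (32 * Q * A ^ 4) := mul_le_mul bh1 h4 (abs_nonneg _) (by positivity)
      _ = 352 * (Q ^ 2 * A ^ 4) := by ring
      _ ≤ _ := by
          have := mul_le_mul_of_nonneg_left hA43 (by positivity : 0 ≤ Q ^ 2)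
          linarith
  refine ⟨?_, ?_, ?_⟩
  · have hid := coef_id s κ
    rw [← hf, ← hg] at hid
    have hcb := coef_bd (κ := κ) hs0 hs1
    rw [← hid] at hcb
    obtain ⟨P, hP⟩ : ∃ P, P = f / 2 - 3 * g + 16 / 15 + 2 * (-(3 / 8) + 27 / 16 * ((1 + s) / 4) +
      49 / 16 * (3 / 16 * s + κ / 16) - 41 / 8 * ((1 + s) / 4) ^ 2) := ⟨_, rfl⟩
    rw [← hP] at hcb
    have e : (4 * μ2 - 2 * s2) - (μ - 2 * s) + 2 + 16 / 15 * A ^ 2 =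
        P * A ^ 2 + 2 * (Δ * A ^ 2) + (f1 - 2 * g1) * ω + 2 * e1 + 4 * d1 - 2 * d2 - 3 * e2 := by
      rw [hP, hΔ, hω, he1, hd1, hd2, he2, he3, hf1, hg1]
      ring
    have bP : |P * A ^ 2| ≤ 6 * ((|s - 1 / 3| + |κ - 1 / 15|) * A ^ 2) := by
      rw [abs_mul, abs_of_pos hA2]
      have := mul_le_mul_of_nonneg_right hcb hA2.le
      linarith
    have hX : 0 ≤ (|s - 1 / 3| + |κ - 1 / 15|) * A ^ 2 := by positivity
    have hX2 : 6 * ((|s - 1 / 3| + |κ - 1 / 15|) * A ^ 2) ≤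
        2000 * Q ^ 2 * ((|s - 1 / 3| + |κ - 1 / 15|) * A ^ 2) := by
      refine mul_le_mul_of_nonneg_right ?_ hX
      linarith
    obtain ⟨y1, y2⟩ := abs_le.1 bP
    obtain ⟨y3, y4⟩ := abs_le.1 bΔA
    obtain ⟨y5, y6⟩ := abs_le.1 bω
    obtain ⟨y7, y8⟩ := abs_le.1 b1
    obtain ⟨y9, y10⟩ := abs_le.1 c1
    obtain ⟨y11, y12⟩ := abs_le.1 c2
    obtain ⟨y13, y14⟩ := abs_le.1 h2
    rw [e, mul_add, abs_le]
    constructor <;> linarith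
  · have e : s2 - 1 / 3 = (s - 1 / 3) / 16 + (g * A ^ 2 + e2) / 4 + g1 * A1 ^ 2 + d2 := by
      rw [hd2, he2]
      ring
    rw [e]
    obtain ⟨y1, y2⟩ := abs_le.1 bgA
    obtain ⟨y3, y4⟩ := abs_le.1 bgB
    obtain ⟨y5, y6⟩ := abs_le.1 h2
    obtain ⟨y7, y8⟩ := abs_le.1 c2
    have y9 := le_abs_self (s - 1 / 3)
    have y10 := neg_abs_le (s - 1 / 3)
    rw [abs_le]
    constructor <;> linarith
  · have e : κ2 - 1 / 15 = 15 / 256 * (s - 1 / 3) + (κ - 1 / 15) / 256 + 3 / 16 * (g * A ^ 2 + e2) +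
        e3 / 16 + d3 := by
      rw [hd3, he2, he3]
      ring
    rw [e]
    obtain ⟨y1, y2⟩ := abs_le.1 bgA
    obtain ⟨y3, y4⟩ := abs_le.1 h3
    obtain ⟨y5, y6⟩ := abs_le.1 h2
    obtain ⟨y7, y8⟩ := abs_le.1 c3
    have y9 := le_abs_self (s - 1 / 3)
    have y10 := neg_abs_le (s - 1 / 3)
    have y11 := le_abs_self (κ - 1 / 15)
    have y12 := neg_abs_le (κ - 1 / 15)
    rw [abs_le]
    constructor <;> linarith

theorem vr_nonneg {a : ℕ → ℝ} (ha : Law a) : 0 ≤ vr a :=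
  tsum_nonneg fun k => mul_nonneg (ha.nn k) (sq_nonneg _)

theorem k4_pois {m : ℝ} (hm : 0 ≤ m) : k4 (pois m) = m := by
  obtain ⟨ha, h1, h2, -⟩ := bPOIS m hm
  have c0 : E (pois m) (fun k => ((k : ℝ) - m) ^ 0) = 1 := by
    simp only [pow_zero]
    exact ha.toLaw.E_const 1
  have c1 : E (pois m) (fun k => ((k : ℝ) - m) ^ 1) = 0 := by
    have := Pool.Agent.Q210.MK.c_rec hm 0
    simpa using this
  have c2 : E (pois m) (fun k => ((k : ℝ) - m) ^ 2) = m := by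
    have := Pool.Agent.Q210.MK.c_rec hm 1
    rw [this]
    simp only [Finset.sum_range_succ, Finset.sum_range_zero, c0]
    norm_num
  have c4 : E (pois m) (fun k => ((k : ℝ) - m) ^ 4) = m * (1 + 3 * m) := by
    have := Pool.Agent.Q210.MK.c_rec hm 3
    rw [this]
    simp only [Finset.sum_range_succ, Finset.sum_range_zero, c0, c1, c2]
    norm_num [Nat.choose]
  unfold k4
  rw [h1, h2, c4]
  ring

/-- `A = 1/√μ` -/
theorem inv_sqrt {μ : ℝ} (hμ : 1 ≤ μ) : ∃ A : ℝ, 0 < A ∧ A ≤ 1 ∧ μ * A ^ 2 = 1 ∧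
    (∀ x : ℝ, x / μ = x * A ^ 2) ∧ (∀ x : ℝ, x / √μ = x * A) ∧ (∀ x : ℝ, x * √μ = x / A) ∧
    (∀ x : ℝ, x / (μ * √μ) = x * A ^ 3) ∧ A = 1 / √μ := by
  have h0 : 0 < μ := by linarith
  have hs : 0 < √μ := Real.sqrt_pos.2 h0
  have hs1 : 1 ≤ √μ := Real.one_le_sqrt.2 hμ
  have hsq : √μ ^ 2 = μ := Real.sq_sqrt h0.le
  have hμA : μ * (1 / √μ) ^ 2 = 1 := by
    rw [div_pow, one_pow, hsq]
    field_simp
  refine ⟨1 / √μ, by positivity, ?_, hμA, ?_, ?_, ?_, ?_, rfl⟩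
  · rw [div_le_one hs]
    exact hs1
  · intro x
    rw [div_eq_iff h0.ne']
    linear_combination -x * hμA
  · intro x
    ring
  · intro x
    field_simp
  · intro x
    have e : (1 / √μ) ^ 3 = 1 / (μ * √μ) := by
      rw [div_pow, one_pow, pow_succ, hsq]
    rw [e]
    ring

theorem t_FL2 : P_CLP → P_K4 → P_TM2 → P_FL2 := by
  intro hC hK hT
  obtain ⟨C3, C8, C12, M0, D0, h3, h8, h12, hM0, hD0, hP, -, hpois⟩ := hC
  obtain ⟨B4, hB4, hK⟩ := hK C8 C12 h8 h12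
  obtain ⟨M1, hM1, hK⟩ := hK B4 le_rfl C3 h3
  obtain ⟨D, M2, hD, hM2, hT⟩ := hT C3 C8 C12 B4 h3 h8 h12 hB4
  obtain ⟨Q, hQ⟩ : ∃ Q, Q = 2 + C3 + D := ⟨_, rfl⟩
  obtain ⟨M3, hM3⟩ : ∃ M3, M3 = M0 + M1 + M2 + 4 * D0 := ⟨_, rfl⟩
  have hQ2 : 2 ≤ Q := by linarith
  have stepT : ∀ a : ℕ → ℝ, Cl C3 C8 C12 a → |k4 a| ≤ B4 * (mean a * √(mean a)) → M3 ≤ mean a →
      Cl C3 C8 C12 (T a) ∧ |k4 (T a)| ≤ B4 * (mean (T a) * √(mean (T a))) ∧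
      mean a / 4 ≤ mean (T a) ∧ mean (T a) ≤ mean a ∧ ∀ A : ℝ, 0 < A → A ≤ 1 → mean a * A ^ 2 = 1 →
      (∀ x : ℝ, x / mean a = x * A ^ 2) → (∀ x : ℝ, x / √(mean a) = x * A) →
      (∀ x : ℝ, x * √(mean a) = x / A) → (∀ x : ℝ, x / (mean a * √(mean a)) = x * A ^ 3) →
      |mean (T a) - (mean a / 2 - 1 / 8 - 5 / 8 * (vr a / mean a) + 1 / 4 * (1 / 8 +
        25 / 16 * (vr a / mean a) + 35 / 16 * (k3 a / mean a) -
        25 / 8 * (vr a / mean a) ^ 2) * A ^ 2)| ≤ Q * A ^ 3 ∧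
      |vr (T a) / mean (T a) - ((1 + vr a / mean a) / 4 + (1 / 4 - 1 / 16 * (vr a / mean a) -
        7 / 16 * (k3 a / mean a) + (vr a / mean a) ^ 2) * A ^ 2)| ≤ 40 * Q ^ 2 * A ^ 3 ∧
      |k3 (T a) / mean (T a) - (3 / 16 * (vr a / mean a) + (k3 a / mean a) / 16)| ≤ 8 * Q ^ 2 * A ∧
      |1 / mean (T a) - 2 * A ^ 2| ≤ 32 * Q * A ^ 4 := by
    intro a ha hk hm
    have hm10 : 10 ≤ mean a := by linarith
    have hm0 : 0 < mean a := by linarith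
    obtain ⟨p1, -, p3, -⟩ := hP a ha (by linarith)
    obtain ⟨q1, -⟩ := hK a ha hk (by linarith)
    obtain ⟨r1, r2, r3⟩ := hT a ha hk (by linarith)
    have hs0 : 0 ≤ vr a / mean a := div_nonneg (vr_nonneg ha.toLaw) hm0.le
    have hs1 : vr a / mean a ≤ 1 := (div_le_one hm0).2 ha.vr_le
    have hκ : |k3 a / mean a| ≤ Q := by
      rw [abs_div, abs_of_pos hm0, div_le_iff₀ hm0]
      refine ha.k3_le.trans ?_
      exact mul_le_mul_of_nonneg_right (by linarith) hm0.le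
    have hD0' : D0 / mean a ≤ 1 / 4 := by
      rw [div_le_iff₀ hm0]
      linarith
    obtain ⟨u1, u2⟩ := abs_le.1 p3
    have hl : mean a / 4 ≤ mean (T a) := by linarith
    have hu : mean (T a) ≤ mean a := by linarith
    refine ⟨p1, q1, hl, hu, ?_⟩
    intro A hA hA1 hμA f1 f2 f3 f4
    have hDQ : D ≤ Q := by linarith
    have r1' : |mean (T a) - (mean a / 2 - 1 / 8 - 5 / 8 * (vr a / mean a) + 1 / 4 * (1 / 8 +
        25 / 16 * (vr a / mean a) + 35 / 16 * (k3 a / mean a) -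
        25 / 8 * (vr a / mean a) ^ 2) * A ^ 2)| ≤ Q * A ^ 3 := by
      rw [f4] at r1
      have e := f1 (1 / 4 * (1 / 8 + 25 / 16 * (vr a / mean a) + 35 / 16 * (k3 a / mean a) -
        25 / 8 * (vr a / mean a) ^ 2))
      rw [e] at r1
      exact r1.trans (mul_le_mul_of_nonneg_right hDQ (by positivity))
    have hv : vr a / mean a * mean a = vr a := div_mul_cancel₀ _ hm0.ne'
    have hk3 : k3 a / mean a * mean a = k3 a := div_mul_cancel₀ _ hm0.ne'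
    have r2' : |vr (T a) - (mean a / 8 + (vr a / mean a) * mean a / 8 + 3 / 32 -
        7 / 32 * (vr a / mean a) - 7 / 32 * (k3 a / mean a) + 11 / 32 * (vr a / mean a) ^ 2)| ≤ Q * A := by
      rw [f2] at r2
      rw [hv]
      exact r2.trans (mul_le_mul_of_nonneg_right hDQ hA.le)
    have r3' : |k3 (T a) - (3 / 32 * ((vr a / mean a) * mean a) + (k3 a / mean a) * mean a / 32)| ≤ Q / A := by
      rw [f3] at r3
      rw [hv, hk3]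
      exact r3.trans (div_le_div_of_nonneg_right hDQ hA.le)
    exact ⟨r1', step_bd hQ2 hA hA1 hμA hs0 hs1 hκ hl r1' r2' r3'⟩
  have stepS : ∀ a : ℕ → ℝ, Cl C3 C8 C12 a → |k4 a| ≤ B4 * (mean a * √(mean a)) → M3 ≤ mean a →
      Cl C3 C8 C12 (S a) ∧ |k4 (S a)| ≤ B4 * (mean (S a) * √(mean (S a))) ∧
      mean (S a) = 2 * mean a ∧ vr (S a) = 2 * vr a ∧ k3 (S a) = 2 * k3 a := by
    intro a ha hk hm
    obtain ⟨-, p2, -, -⟩ := hP a ha (by linarith)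
    obtain ⟨-, q2⟩ := hK a ha hk (by linarith)
    obtain ⟨r1, r2, r3⟩ := bSM a ha.toAM
    exact ⟨p2, q2, r1, r2, r3⟩
  refine ⟨C3, C8, C12, B4, 16 * M3, 2000 * Q ^ 2, h3, by linarith, by positivity, ?_, ?_⟩
  · intro m hm
    have hm1 : 1 ≤ m := by linarith
    refine ⟨hpois m (by linarith), ?_⟩
    rw [k4_pois (by linarith), (bPOIS m (by linarith)).2.1, abs_of_nonneg (by linarith)]
    have h5 : 1 ≤ √m := Real.one_le_sqrt.2 hm1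
    have h6 : m ≤ m * √m := le_mul_of_one_le_right (by linarith) h5
    have h7 : m * √m ≤ B4 * (m * √m) := le_mul_of_one_le_left (by positivity) hB4
    linarith
  intro a ha hk hm
  have hm0 : 0 < mean a := by linarith
  obtain ⟨a1, a2, a3, a4, a5⟩ := stepT a ha hk (by linarith)
  obtain ⟨b1, b2, b3, b4, b5⟩ := stepT (T a) a1 a2 (by linarith)
  obtain ⟨c1, c2, c3, c4, c5⟩ := stepS (T (T a)) b1 b2 (by linarith)
  obtain ⟨d1, d2, d3, d4, d5⟩ := stepS (S (T (T a))) c1 c2 (by linarith)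
  have hR : R a = S (S (T (T a))) := rfl
  obtain ⟨A, hA, hA1, hμA, f1, f2, f3, f4, hAe⟩ := inv_sqrt (show 1 ≤ mean a by linarith)
  obtain ⟨B, hB, hB1, hμB, g1, g2, g3, g4, hBe⟩ := inv_sqrt (show 1 ≤ mean (T a) by linarith)
  obtain ⟨x1, x2, x3, x4⟩ := a5 A hA hA1 hμA f1 f2 f3 f4
  obtain ⟨y1, y2, y3, y4⟩ := b5 B hB hB1 hμB g1 g2 g3 g4
  have hm1 : 0 < mean (T a) := by linarith
  have hm2 : 0 < mean (T (T a)) := by linarith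
  have hBA : B ≤ 2 * A := by
    rw [hAe, hBe]
    have h5 : √(mean a) / 2 ≤ √(mean (T a)) := by
      refine Real.le_sqrt_of_sq_le ?_
      rw [div_pow, Real.sq_sqrt hm0.le]
      linarith
    have h6 : 0 < √(mean a) := Real.sqrt_pos.2 hm0
    rw [mul_one_div, div_le_div_iff₀ (Real.sqrt_pos.2 hm1) h6]
    linarith
  have hBB : B ^ 2 = 1 / mean (T a) := by
    rw [eq_div_iff hm1.ne']
    linarith
  rw [← hBB] at x4
  have bnd : ∀ b : ℕ → ℝ, Cl C3 C8 C12 b → 0 < mean b → 0 ≤ vr b / mean b ∧ vr b / mean b ≤ 1 ∧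
      |k3 b / mean b| ≤ Q := by
    intro b hb hb0
    refine ⟨div_nonneg (vr_nonneg hb.toLaw) hb0.le, (div_le_one hb0).2 hb.vr_le, ?_⟩
    rw [abs_div, abs_of_pos hb0, div_le_iff₀ hb0]
    refine hb.k3_le.trans ?_
    exact mul_le_mul_of_nonneg_right (by linarith) hb0.le
  obtain ⟨s0, s1, s2⟩ := bnd a ha hm0
  obtain ⟨t0, t1, t2⟩ := bnd (T a) a1 hm1
  obtain ⟨z1, z2, z3⟩ := two_bd hQ2 hA hA1 s0 s1 s2 t0 t1 t2 hB hBA x1 x2 x3 x4 y1 y2 y3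
  have eR : mean (R a) = 4 * mean (T (T a)) := by rw [hR, d3, c3]; ring
  have eV : vr (R a) / mean (R a) = vr (T (T a)) / mean (T (T a)) := by
    rw [hR, d4, d3, c4, c3]
    field_simp
  have eK : k3 (R a) / mean (R a) = k3 (T (T a)) / mean (T (T a)) := by
    rw [hR, d5, d3, c5, c3]
    field_simp
  refine ⟨d1, d2, ?_, ?_, ?_⟩
  · rw [eV, eR, f1 (16 / 15), f1 (|vr a / mean a - 1 / 3| + |k3 a / mean a - 1 / 15|), f4 1, one_mul]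
    exact z1
  · rw [eV, f1 (2000 * Q ^ 2)]
    exact z2
  · rw [eK, f2 (2000 * Q ^ 2)]
    exact z3

end Pool.Agent.Q176.MK
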