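import Pool.Agent.Q255.MK.Stm2
import Pool.Agent.Q162.FG.BLK

/-!
# Project MK of helper255, second theorem, job BAD: few integers have a large prime sum
-/

set_option autoImplicit false

open MeasureTheory Finset

namespace Pool.Agent.Q176.MK.BAD

open Q289.PAM Pool.Agent.Q255.RM Pool.Agent.Q255.FG Pool.Agent.Q255.MK

open Classical in
lemma block (h : S_A1) (X : Finset ℕ) (f : ℕ → ℕ → ℂ) (T K : ℝ) (hK : 0 ≤ K)
    (hX : ∀ (P : Finset ℕ) (Y m : ℕ) (c : ℕ → ℂ), (∀ p ∈ P, p.Prime ∧ p ≤ Y) → (Y : ℝ) ^ m ≤ T →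
      ∑ d ∈ X, ‖∑ p ∈ P, c p * f d p‖ ^ (2 * m) ≤
        K * T * (Nat.factorial m) * (∑ p ∈ P, ‖c p‖ ^ 2) ^ m) (P : Finset ℕ) (c : ℕ → ℂ)
    (z W κ L ρ M : ℝ) (hρ : 0 < ρ) (hρ1 : ρ ≤ 1) (hz : 1 ≤ Real.log z) (hz0 : 0 < z)
    (hP : ∀ p ∈ P, p.Prime ∧ z < p ∧ (p : ℝ) ≤ W)
    (hc : ∀ p ∈ P, ‖c p‖ ≤ 1 / p) (hW : W ≤ z ^ (1 + ρ)) (hM : Real.log W ≤ M) (hT1 : 1 ≤ T)
    (hTL : Real.log T ≤ 3 * L) (hκ : 0 < κ) (hb : 6 * L / κ ^ 2 ≤ z ^ ρ) :
    ((X.filter fun ψ => κ ≤ ‖∑ p ∈ P, c p * f ψ p‖).card : ℝ) ≤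
      K * Real.exp (2 * ρ * Real.log T + M) := by
  rcases P.eq_empty_or_nonempty with hPe | ⟨p₀, hp₀⟩
  · subst hPe
    have : (X.filter fun ψ => κ ≤ ‖∑ p ∈ (∅ : Finset ℕ), c p * f ψ p‖) = ∅ := by
      apply Finset.filter_false_of_mem
      intro ψ _
      simp [hκ]
    rw [this]
    simp only [Finset.card_empty, Nat.cast_zero]
    positivity
  have hzW : z < W := lt_of_lt_of_le (hP p₀ hp₀).2.1 (hP p₀ hp₀).2.2
  have hW0 : 0 < W := hz0.trans hzW
  have hlzW : Real.log z ≤ Real.log W := Real.log_le_log hz0 hzW.le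
  have hlW1 : 1 ≤ Real.log W := hz.trans hlzW
  have hlW0 : 0 < Real.log W := by linarith
  have hlz0 : 0 < Real.log z := by linarith
  have hlT : 0 ≤ Real.log T := Real.log_nonneg hT1
  have hT0 : 0 < T := by linarith
  have hz1 : 1 ≤ z := by
    by_contra hh
    push Not at hh
    have := Real.log_nonpos hz0.le hh.le
    linarith
  set m := ⌊Real.log T / Real.log W⌋₊ with hm
  have hm1 : (m : ℝ) ≤ Real.log T / Real.log W := Nat.floor_le (by positivity)
  have hm2 : Real.log T / Real.log W < m + 1 := Nat.lt_floor_add_one _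
  have hm3 : (m : ℝ) ≤ 3 * L := by
    have : Real.log T / Real.log W ≤ Real.log T := div_le_self hlT hlW1
    linarith
  have hL0 : 0 ≤ L := by
    have := Nat.cast_nonneg (α := ℝ) m
    linarith
  have hWm : W ^ m ≤ T := by
    rw [← Real.exp_log hW0, ← Real.exp_nat_mul]
    calc Real.exp (m * Real.log W) ≤ Real.exp (Real.log T) := by
          rw [Real.exp_le_exp]
          rwa [le_div_iff₀ hlW0] at hm1
      _ = T := Real.exp_log hT0
  have hY : ((⌊W⌋₊ : ℕ) : ℝ) ^ m ≤ T :=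
    (pow_le_pow_left₀ (Nat.cast_nonneg _) (Nat.floor_le hW0.le) m).trans hWm
  have key := hX P ⌊W⌋₊ m c (fun p hp => ⟨(hP p hp).1, Nat.le_floor (hP p hp).2.2⟩) hY
  have hsum : ∑ p ∈ P, ‖c p‖ ^ 2 ≤ 2 / z := by
    refine (Finset.sum_le_sum fun p hp => ?_).trans (h.2.2.2 P z hz1 fun p hp => (hP p hp).2.1)
    have := pow_le_pow_left₀ (norm_nonneg _) (hc p hp) 2
    rwa [div_pow, one_pow] at this
  have hfac : ((Nat.factorial m : ℕ) : ℝ) ≤ (3 * L) ^ m := by
    have h1 : Nat.factorial m ≤ m ^ m := Nat.factorial_le_pow m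
    calc ((Nat.factorial m : ℕ) : ℝ) ≤ ((m ^ m : ℕ) : ℝ) := by exact_mod_cast h1
      _ = (m : ℝ) ^ m := by push_cast; rfl
      _ ≤ (3 * L) ^ m := pow_le_pow_left₀ (Nat.cast_nonneg _) hm3 m
  set F := X.filter fun ψ => κ ≤ ‖∑ p ∈ P, c p * f ψ p‖ with hF
  have hcount : (F.card : ℝ) * κ ^ (2 * m) ≤ K * T * (3 * L) ^ m * (2 / z) ^ m := by
    calc (F.card : ℝ) * κ ^ (2 * m) = ∑ _ψ ∈ F, κ ^ (2 * m) := by rw [Finset.sum_const, nsmul_eq_mul]
      _ ≤ ∑ ψ ∈ F, ‖∑ p ∈ P, c p * f ψ p‖ ^ (2 * m) := Finset.sum_le_sum fun ψ hψ =>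
          pow_le_pow_left₀ hκ.le (Finset.mem_filter.1 hψ).2 _
      _ ≤ ∑ ψ ∈ X, ‖∑ p ∈ P, c p * f ψ p‖ ^ (2 * m) := Finset.sum_le_sum_of_subset_of_nonneg
          (Finset.filter_subset _ _) fun _ _ _ => by positivity
      _ ≤ K * T * (Nat.factorial m) * (∑ p ∈ P, ‖c p‖ ^ 2) ^ m := key
      _ ≤ K * T * (3 * L) ^ m * (2 / z) ^ m := by
          have s0 : 0 ≤ ∑ p ∈ P, ‖c p‖ ^ 2 := Finset.sum_nonneg fun _ _ => by positivity
          gcongr
  have hκm : 0 < κ ^ (2 * m) := by positivity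
  have hcount2 : (F.card : ℝ) ≤ K * T * (6 * L / κ ^ 2 / z) ^ m := by
    rw [← le_div_iff₀ hκm] at hcount
    refine hcount.trans (le_of_eq ?_)
    rw [pow_mul, div_pow, div_pow, div_pow, mul_pow, mul_pow]
    field_simp
    rw [show (6 : ℝ) = 3 * 2 by norm_num, mul_pow]
    try ring
  have hzρ : z ^ ρ / z = Real.exp (-((1 - ρ) * Real.log z)) := by
    rw [Real.rpow_def_of_pos hz0]
    conv_lhs => rw [show z = Real.exp (Real.log z) from (Real.exp_log hz0).symm]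
    rw [Real.log_exp, ← Real.exp_sub]
    congr 1
    ring
  have hcount3 : (F.card : ℝ) ≤ K * T * Real.exp (-((1 - ρ) * (m * Real.log z))) := by
    refine hcount2.trans ?_
    have e1 : Real.exp (-((1 - ρ) * (m * Real.log z))) = (z ^ ρ / z) ^ m := by
      rw [hzρ, ← Real.exp_nat_mul]
      congr 1
      ring
    rw [e1]
    gcongr
  refine hcount3.trans ?_
  have hmz : Real.log T / (1 + ρ) - Real.log z ≤ m * Real.log z := by
    have a1 : Real.log W ≤ (1 + ρ) * Real.log z := by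
      have := Real.log_le_log hW0 hW
      rwa [Real.log_rpow hz0] at this
    have a2 : (Real.log T / Real.log W) * Real.log z ≤ (m + 1) * Real.log z :=
      mul_le_mul_of_nonneg_right hm2.le hlz0.le
    have a3 : Real.log T / (1 + ρ) ≤ (Real.log T / Real.log W) * Real.log z := by
      rw [div_le_iff₀ (by linarith), div_mul_eq_mul_div, div_mul_eq_mul_div, le_div_iff₀ hlW0]
      nlinarith
    linarith
  have hlast : Real.log T + -((1 - ρ) * (m * Real.log z)) ≤ 2 * ρ * Real.log T + M := by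
    have a1 : (1 - ρ) * (Real.log T / (1 + ρ) - Real.log z) ≤ (1 - ρ) * (m * Real.log z) :=
      mul_le_mul_of_nonneg_left hmz (by linarith)
    have a2 : (1 - 2 * ρ) * Real.log T ≤ (1 - ρ) * (Real.log T / (1 + ρ)) := by
      rw [mul_div_assoc', le_div_iff₀ (by linarith)]
      nlinarith [mul_nonneg hlT (sq_nonneg ρ)]
    have a3 : (1 - ρ) * Real.log z ≤ M := by nlinarith
    nlinarith
  calc K * T * Real.exp (-((1 - ρ) * (m * Real.log z)))
      = K * Real.exp (Real.log T + -((1 - ρ) * (m * Real.log z))) := by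
        rw [Real.exp_add, Real.exp_log hT0]; ring
    _ ≤ K * Real.exp (2 * ρ * Real.log T + M) := by gcongr

lemma asymC (C ε : ℝ) (hC : 0 < C) (hε : 0 < ε) : ∃ N₀ : ℕ, ∀ N : ℕ, N₀ ≤ N →
    C * (1 + Real.log N) ^ 2 ≤ Real.exp (ε * Real.log N) := by
  have t1 : Filter.Tendsto (fun N : ℕ => Real.log (N : ℝ)) Filter.atTop Filter.atTop :=
    Real.tendsto_log_atTop.comp tendsto_natCast_atTop_atTop
  have o1 : ∀ᶠ x : ℝ in Filter.atTop, C * (1 + x) ^ 2 ≤ Real.exp (ε * x) := by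
    have h1 := (Real.tendsto_exp_div_pow_atTop 3).eventually_ge_atTop (4 * C / ε ^ 3)
    have h2 := (Filter.tendsto_id.const_mul_atTop hε).eventually h1
    filter_upwards [h2, Filter.eventually_ge_atTop (1 : ℝ)] with x hx hx1
    have hx0 : 0 < x := by linarith
    simp only [id] at hx
    rw [le_div_iff₀ (by positivity)] at hx
    have e1 : 4 * C / ε ^ 3 * (ε * x) ^ 3 = 4 * C * x ^ 3 := by
      field_simp
    rw [e1] at hx
    refine le_trans ?_ hx
    have e2 : (1 + x) ^ 2 ≤ 4 * x ^ 3 := by nlinarith [sq_nonneg (x - 1), sq_nonneg x]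
    calc C * (1 + x) ^ 2 ≤ C * (4 * x ^ 3) := mul_le_mul_of_nonneg_left e2 hC.le
      _ = _ := by ring
  have := t1.eventually o1
  rw [Filter.eventually_atTop] at this
  exact this

theorem bad (hmt : S_HMT) (h : S_A1) : S_BAD := by
  classical
  intro η hη hη1 ε hε
  set ρ : ℝ := min ε 1 / 20 with hρd
  have hmin : 0 < min ε 1 := lt_min hε one_pos
  have hρ : 0 < ρ := by rw [hρd]; positivity
  have hρ1 : ρ ≤ 1 := by
    have := min_le_right ε 1
    rw [hρd]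
    linarith
  have hρε : 6 * ρ ≤ ε / 2 := by
    have := min_le_left ε 1
    rw [hρd]
    linarith
  obtain ⟨C, hC, hmt⟩ := hmt
  obtain ⟨N₀, hN₀⟩ := Pool.Agent.Q162.FG.asymB η ρ (ε / 2) hη hρ (by positivity)
  obtain ⟨N₁, hN₁⟩ := asymC C (ε / 4) hC (by positivity)
  refine ⟨max N₀ N₁, fun N hN => ?_⟩
  obtain ⟨hN2, hL4, hB, hE2, hE3⟩ := hN₀ N ((le_max_left _ _).trans hN)
  have hE4 := hN₁ N ((le_max_right _ _).trans hN)
  obtain ⟨T, hTN⟩ : ∃ T : ℝ, T = N := ⟨_, rfl⟩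
  obtain ⟨X, hXd⟩ : ∃ X : Finset ℕ, X = Icc 1 N := ⟨_, rfl⟩
  obtain ⟨K, hKd⟩ : ∃ K : ℝ, K = C * (1 + Real.log N) ^ 2 := ⟨_, rfl⟩
  obtain ⟨f, hfd⟩ : ∃ f : ℕ → ℕ → ℂ, f = fun (d p : ℕ) => tw (d : ℝ) p := ⟨_, rfl⟩
  have hK : 0 ≤ K := by rw [hKd]; positivity
  have hX : ∀ (P : Finset ℕ) (Y m : ℕ) (c : ℕ → ℂ), (∀ p ∈ P, p.Prime ∧ p ≤ Y) → (Y : ℝ) ^ m ≤ T →
      ∑ d ∈ X, ‖∑ p ∈ P, c p * f d p‖ ^ (2 * m) ≤
        K * T * (Nat.factorial m) * (∑ p ∈ P, ‖c p‖ ^ 2) ^ m := by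
    intro P Y m c hP hY
    rw [hTN] at hY ⊢
    have h1 := hmt N (by omega) P Y m c hP (by exact_mod_cast hY)
    rw [hXd, hfd, hKd]
    refine h1.trans (le_of_eq ?_)
    ring
  have hgoal : ((Icc 1 N).filter fun d : ℕ => Real.exp (-(Real.log N ^ (η / 2))) <
      ‖∑ p ∈ mid N η, (((p : ℝ) ^ (-(1 + 2 * dl N)) : ℝ) : ℂ) * tw d p‖) =
      (X.filter fun ψ => Real.exp (-(Real.log N ^ (η / 2))) <
      ‖∑ p ∈ mid N η, (((p : ℝ) ^ (-(1 + 2 * dl N)) : ℝ) : ℂ) * f ψ p‖) := by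
    rw [hXd, hfd]
  rw [hgoal]
  set L := Real.log N with hL
  set B := ⌈Real.log L / Real.log (1 + ρ)⌉₊ with hBd
  set lam := Real.exp (-(L ^ (η / 2))) with hlam
  have hN0 : (0 : ℝ) < N := by exact_mod_cast (by omega : 0 < N)
  have hL0 : 0 < L := by linarith
  set z : ℕ → ℝ := fun j => Real.exp (L ^ η * (1 + ρ) ^ j) with hzd
  have hLη : 1 ≤ L ^ η := Real.one_le_rpow (by linarith) hη.le
  have hz : ∀ j, z j ≤ z (j + 1) := by
    intro j
    simp only [hzd, Real.exp_le_exp]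
    have : (1 + ρ) ^ j ≤ (1 + ρ) ^ (j + 1) := pow_le_pow_right₀ (by linarith) (Nat.le_succ j)
    exact mul_le_mul_of_nonneg_left this (by linarith)
  have hz0 : z 0 = Real.exp (L ^ η) := by simp [hzd]
  have hzB : Real.exp (L ^ (1 / 2 - η)) ≤ z B := by
    simp only [hzd, Real.exp_le_exp]
    have hr : 0 < Real.log (1 + ρ) := Real.log_pos (by linarith)
    have h1 : L ≤ (1 + ρ) ^ B := by
      have h2 : Real.log L / Real.log (1 + ρ) ≤ B := Nat.le_ceil _
      rw [div_le_iff₀ hr] at h2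
      have h3 : Real.log L ≤ Real.log ((1 + ρ) ^ B) := by rw [Real.log_pow]; exact h2
      exact (Real.log_le_log_iff hL0 (by positivity)).1 h3
    calc L ^ (1 / 2 - η) ≤ L ^ (1 : ℝ) := Real.rpow_le_rpow_of_exponent_le (by linarith) (by linarith)
      _ = L := Real.rpow_one L
      _ ≤ (1 + ρ) ^ B := h1
      _ ≤ L ^ η * (1 + ρ) ^ B := by
          have : 0 < (1 + ρ) ^ B := by positivity
          nlinarith
  set c : ℕ → ℂ := fun p => (((p : ℝ) ^ (-(1 + 2 * dl N)) : ℝ) : ℂ) with hc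
  set Q : ℕ → Finset ℕ := fun j => (mid N η).filter (fun p : ℕ => z j < p ∧ (p : ℝ) ≤ z (j + 1)) with hQ
  have hmid : ∀ p ∈ mid N η, p.Prime ∧ Real.exp (L ^ η) < p ∧ (p : ℝ) ≤ Real.exp (L ^ (1 / 2 - η)) := by
    intro p hp
    exact (Finset.mem_filter.1 hp).2
  have hsp : ∀ ψ : ℕ, ∑ p ∈ mid N η, c p * f ψ p = ∑ j ∈ range B, ∑ p ∈ Q j, c p * f ψ p := by
    intro ψ
    rw [hQ, Pool.Agent.Q162.FG.split (mid N η) z hz (fun p hp => by rw [hz0]; exact (hmid p hp).2.1)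
      (fun p => c p * f ψ p) B]
    rw [Finset.filter_true_of_mem]
    intro p hp
    exact (hmid p hp).2.2.trans hzB
  have hsub : (X.filter fun ψ => lam < ‖∑ p ∈ mid N η, c p * f ψ p‖) ⊆
      (range B).biUnion fun j => X.filter fun ψ => lam / B ≤ ‖∑ p ∈ Q j, c p * f ψ p‖ := by
    intro ψ hψ
    rw [Finset.mem_filter] at hψ
    rw [Finset.mem_biUnion]
    by_contra hcon
    push Not at hcon
    have h1 : ∀ j ∈ range B, ‖∑ p ∈ Q j, c p * f ψ p‖ ≤ lam / B := by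
      intro j hj
      by_contra h2
      push Not at h2
      exact hcon j hj (Finset.mem_filter.2 ⟨hψ.1, h2.le⟩)
    have h2 : ‖∑ p ∈ mid N η, c p * f ψ p‖ ≤ lam := by
      rw [hsp ψ]
      refine (norm_sum_le _ _).trans ((Finset.sum_le_sum h1).trans ?_)
      rw [Finset.sum_const, Finset.card_range, nsmul_eq_mul]
      rcases Nat.eq_zero_or_pos B with h0 | h0
      · rw [h0]
        simp only [Nat.cast_zero, zero_mul]
        positivity
      · have : (0 : ℝ) < B := by exact_mod_cast h0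
        rw [mul_div_cancel₀ _ this.ne']
    exact absurd hψ.2 (not_lt.2 h2)
  have hT1' : 1 ≤ T := by
    rw [hTN]
    exact_mod_cast (by omega : 1 ≤ N)
  have hT0 : 0 < T := by linarith
  have hlogT0 : Real.log T = L := by rw [hTN]
  have hlogT : Real.log T ≤ 3 * L := by linarith
  have hdl : 0 ≤ dl N := by unfold dl; positivity
  have hblock : ∀ j ∈ range B, ((X.filter fun ψ => lam / B ≤ ‖∑ p ∈ Q j, c p * f ψ p‖).card : ℝ) ≤
      K * Real.exp (2 * ρ * Real.log T + L ^ (1 / 2 : ℝ)) := by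
    intro j hj
    have hB0 : (0 : ℝ) < B := by
      have := Finset.mem_range.1 hj
      exact_mod_cast (by omega : 0 < B)
    have hlz : Real.log (z j) = L ^ η * (1 + ρ) ^ j := by simp only [hzd, Real.log_exp]
    have h1j : 1 ≤ (1 + ρ) ^ j := one_le_pow₀ (by linarith)
    refine block h X f T K hK hX (Q j) c (z j) (min (z (j + 1)) (Real.exp (L ^ (1 / 2 - η)))) (lam / B) L ρ
      (L ^ (1 / 2 : ℝ)) hρ hρ1 ?_ (Real.exp_pos _) ?_ ?_ ?_ ?_ hT1' hlogT (by positivity) ?_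
    · rw [hlz]
      nlinarith
    · intro p hp
      rw [hQ, Finset.mem_filter] at hp
      exact ⟨(hmid p hp.1).1, hp.2.1, le_min hp.2.2 (hmid p hp.1).2.2⟩
    · intro p hp
      rw [hQ, Finset.mem_filter] at hp
      have hp1 : (1 : ℝ) ≤ p := by exact_mod_cast (hmid p hp.1).1.one_lt.le
      have hp0 : (0 : ℝ) < p := by linarith
      simp only [hc, Complex.norm_real]
      rw [Real.norm_of_nonneg (by positivity)]
      calc (p : ℝ) ^ (-(1 + 2 * dl N)) ≤ (p : ℝ) ^ (-(1 : ℝ)) :=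
            Real.rpow_le_rpow_of_exponent_le hp1 (by linarith)
        _ = 1 / p := by rw [Real.rpow_neg_one, one_div]
    · refine (min_le_left _ _).trans (le_of_eq ?_)
      simp only [hzd]
      rw [← Real.exp_mul]
      congr 1
      rw [pow_succ]
      ring
    · have h1 : Real.log (min (z (j + 1)) (Real.exp (L ^ (1 / 2 - η)))) ≤ Real.log (Real.exp (L ^ (1 / 2 - η))) :=
        Real.log_le_log (lt_min (Real.exp_pos _) (Real.exp_pos _)) (min_le_right _ _)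
      rw [Real.log_exp] at h1
      exact h1.trans (Real.rpow_le_rpow_of_exponent_le (by linarith) (by linarith))
    · have e1 : 6 * L / (lam / B) ^ 2 = 6 * L * (B : ℝ) ^ 2 * Real.exp (2 * L ^ (η / 2)) := by
        have : lam ^ 2 = (Real.exp (2 * L ^ (η / 2)))⁻¹ := by
          rw [hlam, ← Real.exp_nat_mul, ← Real.exp_neg]
          congr 1
          push_cast
          ring
        rw [div_pow, this]
        field_simp
      have e2 : (z j) ^ ρ = Real.exp (ρ * (L ^ η * (1 + ρ) ^ j)) := by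
        simp only [hzd]
        rw [← Real.exp_mul]
        congr 1
        ring
      rw [e1, e2]
      calc 6 * L * (B : ℝ) ^ 2 * Real.exp (2 * L ^ (η / 2)) ≤ 6 * L * L ^ 2 * Real.exp (2 * L ^ (η / 2)) := by
            gcongr
        _ = 6 * L ^ 3 * Real.exp (2 * L ^ (η / 2)) := by ring
        _ ≤ Real.exp (ρ * L ^ η) := hE2
        _ ≤ Real.exp (ρ * (L ^ η * (1 + ρ) ^ j)) := by
            rw [Real.exp_le_exp]
            have : L ^ η * 1 ≤ L ^ η * (1 + ρ) ^ j := mul_le_mul_of_nonneg_left h1j (by linarith)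
            nlinarith
  have hcard : ((X.filter fun ψ => lam < ‖∑ p ∈ mid N η, c p * f ψ p‖).card : ℝ) ≤
      B * (K * Real.exp (2 * ρ * Real.log T + L ^ (1 / 2 : ℝ))) := by
    have h1 := (Finset.card_le_card hsub).trans Finset.card_biUnion_le
    calc ((X.filter fun ψ => lam < ‖∑ p ∈ mid N η, c p * f ψ p‖).card : ℝ) ≤
        ((∑ j ∈ range B, (X.filter fun ψ => lam / B ≤ ‖∑ p ∈ Q j, c p * f ψ p‖).card : ℕ) : ℝ) := by
          exact_mod_cast h1
      _ = ∑ j ∈ range B, ((X.filter fun ψ => lam / B ≤ ‖∑ p ∈ Q j, c p * f ψ p‖).card : ℝ) := by push_cast; rfl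
      _ ≤ ∑ _j ∈ range B, K * Real.exp (2 * ρ * Real.log T + L ^ (1 / 2 : ℝ)) := Finset.sum_le_sum hblock
      _ = B * (K * Real.exp (2 * ρ * Real.log T + L ^ (1 / 2 : ℝ))) := by
          rw [Finset.sum_const, Finset.card_range, nsmul_eq_mul]
  refine hcard.trans ?_
  have hNε : (N : ℝ) ^ ε = Real.exp (ε * L) := by
    rw [Real.rpow_def_of_pos hN0]
    congr 1
    ring
  rw [hNε]
  calc B * (K * Real.exp (2 * ρ * Real.log T + L ^ (1 / 2 : ℝ)))
      ≤ L * (K * Real.exp (ε / 2 * L + L ^ (1 / 2 : ℝ))) := by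
        have h2 : 2 * ρ * Real.log T ≤ ε / 2 * L := by
          rw [hlogT0]
          nlinarith
        gcongr
    _ ≤ L * (K * Real.exp (ε / 2 * L + L ^ (1 / 2 : ℝ))) * 60 := by
        have : 0 ≤ L * (K * Real.exp (ε / 2 * L + L ^ (1 / 2 : ℝ))) := by positivity
        linarith
    _ = Real.exp (ε / 2 * L) * (K * (60 * L * Real.exp (L ^ (1 / 2 : ℝ)))) := by
        rw [Real.exp_add]; ring
    _ ≤ Real.exp (ε / 2 * L) * (Real.exp (ε / 4 * L) * Real.exp (ε / 2 / 2 * L)) := by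
        rw [hKd]
        gcongr
    _ = Real.exp (ε * L) := by
        rw [← Real.exp_add, ← Real.exp_add]
        congr 1
        ring

end Pool.Agent.Q176.MK.BAD
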