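import Pool.Agent.Q255.MK.Stm2
import Pool.Agent.Q137.MK.SUP
import Pool.Agent.Q299.FG.Tup
import Pool.Agent.Y96.SX.MV

/-!
# Project MK of helper255, second theorem, job HMT: high moments over the integers
-/

set_option autoImplicit false

open MeasureTheory Finset

namespace Pool.Agent.Q176.MK.HMT

open Q289.PAM Pool.Agent.Q255.RM Pool.Agent.Q255.FG Pool.Agent.Q255.MK

lemma tw_one (t : ℝ) : tw t 1 = 1 := by
  unfold tw
  rw [Nat.cast_one, Complex.one_cpow]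

lemma tw_mul (t : ℝ) (a b : ℕ) : tw t (a * b) = tw t a * tw t b := by
  unfold tw
  rw [Nat.cast_mul, Complex.natCast_mul_natCast_cpow]

lemma tw_exp (t : ℝ) {n : ℕ} (hn : n ≠ 0) :
    tw t n = Complex.exp ((-(t * Real.log n) : ℝ) * Complex.I) := by
  unfold tw
  rw [Complex.cpow_def_of_ne_zero (by exact_mod_cast hn), ← Complex.natCast_log]
  congr 1
  push_cast
  ring

lemma norm_tw (t : ℝ) {n : ℕ} (hn : n ≠ 0) : ‖tw t n‖ = 1 := by
  rw [tw_exp t hn, Complex.norm_exp_ofReal_mul_I]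

lemma tw_cont {n : ℕ} (hn : n ≠ 0) : Continuous fun t : ℝ => tw t n := by
  have h : (fun t : ℝ => tw t n) = fun t => Complex.exp ((-(t * Real.log n) : ℝ) * Complex.I) :=
    funext fun t => tw_exp t hn
  rw [h]
  fun_prop

lemma tw_deriv {n : ℕ} (hn : n ≠ 0) (t : ℝ) :
    HasDerivAt (fun t : ℝ => tw t n) ((-Real.log n * Complex.I) * tw t n) t := by
  have h : (fun t : ℝ => tw t n) = fun t => Complex.exp ((-(t * Real.log n) : ℝ) * Complex.I) :=
    funext fun t => tw_exp t hn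
  rw [tw_exp t hn, h]
  have h1 : HasDerivAt (fun t : ℝ => (((-(t * Real.log n) : ℝ) : ℂ) * Complex.I))
      ((-Real.log n : ℝ) * Complex.I) t := by
    have h2 : HasDerivAt (fun t : ℝ => (-(t * Real.log n) : ℝ)) (-Real.log n) t := by
      have h4 : HasDerivAt (fun y : ℝ => y * Real.log n) (1 * Real.log n) t :=
        (hasDerivAt_id t).mul_const (Real.log n)
      rw [one_mul] at h4
      exact h4.fun_neg
    exact h2.ofReal_comp.mul_const Complex.I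
  refine h1.cexp.congr_deriv ?_
  push_cast
  ring

/-- the Dirichlet polynomial -/
noncomputable def A (α : ℕ → ℂ) (M : ℕ) (t : ℝ) : ℂ := ∑ n ∈ Icc 1 M, α n * tw t n

lemma A_cont (α : ℕ → ℂ) (M : ℕ) : Continuous (A α M) := by
  unfold A
  refine continuous_finsetSum _ fun n hn => ?_
  rw [Finset.mem_Icc] at hn
  exact continuous_const.mul (tw_cont (by omega))

lemma A_deriv (α : ℕ → ℂ) (M : ℕ) (t : ℝ) :
    HasDerivAt (A α M) (A (fun n => α n * (-Real.log n * Complex.I)) M t) t := by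
  unfold A
  refine HasDerivAt.fun_sum fun m hm => ?_
  rw [Finset.mem_Icc] at hm
  refine ((tw_deriv (n := m) (by omega) t).const_mul (α m)).congr_deriv ?_
  ring

lemma harm (M T : ℕ) (hT : 1 ≤ T) (h : M ≤ T) : ∑ k ∈ Icc 1 M, (1 : ℝ) / k ≤ 1 + Real.log T := by
  have h1 := harmonic_le_one_add_log M
  rw [harmonic_eq_sum_Icc] at h1
  push_cast at h1
  simp only [one_div]
  refine h1.trans ?_
  rcases Nat.eq_zero_or_pos M with h0 | h0
  · rw [h0]
    have : 0 ≤ Real.log T := Real.log_nonneg (by exact_mod_cast hT)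
    simpa using this
  · have : Real.log M ≤ Real.log T := Real.log_le_log (by exact_mod_cast h0) (by exact_mod_cast h)
    linarith

/-- the mean square over `[1, T + 1]` -/
lemma mean (T M : ℕ) (hT : 1 ≤ T) (h : M ≤ T) (α : ℕ → ℂ) :
    ∫ u in (1 : ℝ)..(T + 1), ‖A α M u‖ ^ 2 ≤ 8 * (1 + Real.log T) * T * ∑ n ∈ Icc 1 M, ‖α n‖ ^ 2 := by
  have hT1 : (1 : ℝ) ≤ T := by exact_mod_cast hT
  have hl : 0 ≤ Real.log T := Real.log_nonneg hT1
  have h1 := Pool.Agent.Y96.SX.mv M ((T : ℝ) + 1) (by linarith) α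
  have h2 : ∀ u : ℝ, ∑ n ∈ Icc 1 M, α n * (n : ℂ) ^ (-(Complex.I * (u : ℂ))) = A α M u := by
    intro u
    unfold A tw
    refine Finset.sum_congr rfl fun n _ => ?_
    rw [mul_comm Complex.I]
  simp only [h2] at h1
  refine h1.trans ?_
  have hS : 0 ≤ ∑ n ∈ Icc 1 M, ‖α n‖ ^ 2 := Finset.sum_nonneg fun _ _ => by positivity
  have h3 : ∑ n ∈ Icc 1 M, (n : ℝ) * ‖α n‖ ^ 2 ≤ T * ∑ n ∈ Icc 1 M, ‖α n‖ ^ 2 := by
    rw [Finset.mul_sum]
    refine Finset.sum_le_sum fun n hn => ?_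
    rw [Finset.mem_Icc] at hn
    have : (n : ℝ) ≤ T := by exact_mod_cast hn.2.trans h
    exact mul_le_mul_of_nonneg_right this (by positivity)
  have h4 := harm M T hT h
  have h5 : 0 ≤ ∑ k ∈ Icc 1 M, (1 : ℝ) / k := Finset.sum_nonneg fun _ _ => by positivity
  have h6 : (∑ k ∈ Icc 1 M, (1 : ℝ) / k) * ∑ n ∈ Icc 1 M, (n : ℝ) * ‖α n‖ ^ 2 ≤
      (1 + Real.log T) * (T * ∑ n ∈ Icc 1 M, ‖α n‖ ^ 2) :=
    mul_le_mul h4 h3 (Finset.sum_nonneg fun _ _ => by positivity) (by linarith)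
  have h7 : ((T : ℝ) + 1) * ∑ n ∈ Icc 1 M, ‖α n‖ ^ 2 ≤
      2 * ((1 + Real.log T) * (T * ∑ n ∈ Icc 1 M, ‖α n‖ ^ 2)) := by
    have e1 : 0 ≤ T * ∑ n ∈ Icc 1 M, ‖α n‖ ^ 2 := by positivity
    have e2 : 0 ≤ Real.log T * (T * ∑ n ∈ Icc 1 M, ‖α n‖ ^ 2) := mul_nonneg hl e1
    have e3 : 1 * ∑ n ∈ Icc 1 M, ‖α n‖ ^ 2 ≤ T * ∑ n ∈ Icc 1 M, ‖α n‖ ^ 2 :=
      mul_le_mul_of_nonneg_right hT1 hS
    linarith
  linarith

/-- sums over the integers from integrals -/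
lemma sum_le (G h : ℝ → ℝ) (hG : Continuous G)
    (hh : ∀ d : ℕ, h d ≤ ∫ s in (d : ℝ)..(d + 1), G s) (T : ℕ) :
    ∑ d ∈ Icc 1 T, h d ≤ ∫ s in (1 : ℝ)..(T + 1), G s := by
  induction T with
  | zero => simp
  | succ T ih =>
    rw [Finset.sum_Icc_succ_top (by omega)]
    have h1 := hh (T + 1)
    have h2 := intervalIntegral.integral_add_adjacent_intervals
      (hG.intervalIntegrable (μ := volume) 1 ((T : ℝ) + 1))
      (hG.intervalIntegrable (μ := volume) ((T : ℝ) + 1) ((T : ℝ) + 1 + 1))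
    push_cast at h1 ⊢
    rw [← h2]
    linarith

/-- the discrete mean value theorem -/
lemma disc (T M : ℕ) (hT : 1 ≤ T) (h : M ≤ T) (α : ℕ → ℂ) :
    ∑ d ∈ Icc 1 T, ‖A α M (d : ℝ)‖ ^ 2 ≤
      24 * (1 + Real.log T) ^ 2 * T * ∑ n ∈ Icc 1 M, ‖α n‖ ^ 2 := by
  have hT1 : (1 : ℝ) ≤ T := by exact_mod_cast hT
  have hl : 0 ≤ Real.log T := Real.log_nonneg hT1
  obtain ⟨lam, hlam⟩ : ∃ lam : ℝ, lam = 1 + Real.log T := ⟨_, rfl⟩
  have hlam1 : 1 ≤ lam := by rw [hlam]; linarith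
  have hlam0 : 0 < lam := by linarith
  obtain ⟨α', hα'⟩ : ∃ α' : ℕ → ℂ, α' = fun n => α n * (-Real.log n * Complex.I) := ⟨_, rfl⟩
  have c1 := A_cont α M
  have c2 := A_cont α' M
  have hd : ∀ x, HasDerivAt (fun s => ‖A α M s‖ ^ 2) (2 * inner ℝ (A α M x) (A α' M x)) x := by
    intro x
    have h2 := A_deriv α M x
    rw [← hα'] at h2
    exact h2.norm_sq
  have hpt : ∀ d : ℕ, ‖A α M (d : ℝ)‖ ^ 2 ≤ ∫ s in (d : ℝ)..(d + 1),
      ((1 + lam) * ‖A α M s‖ ^ 2 + lam⁻¹ * ‖A α' M s‖ ^ 2) := by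
    intro d
    have h3 := Pool.Agent.Q137.MK.sobolev (q := fun s => lam * ‖A α M s‖ ^ 2 +
      lam⁻¹ * ‖A α' M s‖ ^ 2) hd (c1.norm.pow 2) (continuous_const.mul (c1.inner c2))
      ((continuous_const.mul (c1.norm.pow 2)).add (continuous_const.mul (c2.norm.pow 2)))
      (fun x => by
        have e1 := abs_real_inner_le_norm (A α M x) (A α' M x)
        rw [abs_mul, abs_two]
        obtain ⟨u, hu⟩ : ∃ u : ℝ, u = ‖A α M x‖ := ⟨_, rfl⟩
        obtain ⟨v, hv⟩ : ∃ v : ℝ, v = ‖A α' M x‖ := ⟨_, rfl⟩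
        rw [← hu, ← hv] at e1 ⊢
        have e2 : 2 * (u * v) ≤ lam * u ^ 2 + lam⁻¹ * v ^ 2 := by
          have e3 : 0 ≤ lam⁻¹ * (lam * u - v) ^ 2 := by positivity
          have e4 : lam⁻¹ * (lam * u - v) ^ 2 = lam * u ^ 2 + lam⁻¹ * v ^ 2 - 2 * (u * v) := by
            field_simp
            ring
          linarith
        linarith) d d ⟨le_rfl, by linarith⟩
    refine h3.trans (le_of_eq ?_)
    refine intervalIntegral.integral_congr fun s _ => ?_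
    ring
  refine (sum_le (fun s => (1 + lam) * ‖A α M s‖ ^ 2 + lam⁻¹ * ‖A α' M s‖ ^ 2)
    (fun s => ‖A α M s‖ ^ 2) ((continuous_const.mul (c1.norm.pow 2)).add
    (continuous_const.mul (c2.norm.pow 2))) hpt T).trans ?_
  have i1 : IntervalIntegrable (fun s => (1 + lam) * ‖A α M s‖ ^ 2) volume 1 ((T : ℝ) + 1) :=
    (continuous_const.mul (c1.norm.pow 2)).intervalIntegrable _ _
  have i2 : IntervalIntegrable (fun s => lam⁻¹ * ‖A α' M s‖ ^ 2) volume 1 ((T : ℝ) + 1) :=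
    (continuous_const.mul (c2.norm.pow 2)).intervalIntegrable _ _
  rw [intervalIntegral.integral_add i1 i2,
    intervalIntegral.integral_const_mul, intervalIntegral.integral_const_mul]
  have m1 := mean T M hT h α
  have m2 := mean T M hT h α'
  obtain ⟨S, hS⟩ : ∃ S : ℝ, S = ∑ n ∈ Icc 1 M, ‖α n‖ ^ 2 := ⟨_, rfl⟩
  have hS0 : 0 ≤ S := by rw [hS]; exact Finset.sum_nonneg fun _ _ => by positivity
  have hS' : ∑ n ∈ Icc 1 M, ‖α' n‖ ^ 2 ≤ lam ^ 2 * S := by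
    rw [hS, Finset.mul_sum]
    refine Finset.sum_le_sum fun n hn => ?_
    rw [Finset.mem_Icc] at hn
    have hn1 : (1 : ℝ) ≤ n := by exact_mod_cast hn.1
    have hlog0 : 0 ≤ Real.log n := Real.log_nonneg hn1
    have hlog : Real.log n ≤ lam := by
      have : Real.log n ≤ Real.log T := Real.log_le_log (by linarith) (by exact_mod_cast hn.2.trans h)
      rw [hlam]
      linarith
    have e1 : ‖α' n‖ ^ 2 = Real.log n ^ 2 * ‖α n‖ ^ 2 := by
      rw [hα']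
      simp only [norm_mul, norm_neg, Complex.norm_I, mul_one, Complex.norm_real, Real.norm_eq_abs]
      rw [mul_pow, sq_abs, mul_comm]
    rw [e1]
    exact mul_le_mul_of_nonneg_right (pow_le_pow_left₀ hlog0 hlog 2) (by positivity)
  rw [← hS, ← hlam] at m1
  rw [← hlam] at m2
  rw [← hS, ← hlam]
  have hTS : 0 ≤ (T : ℝ) * S := by positivity
  have k1 : (1 + lam) * ∫ u in (1 : ℝ)..(T + 1), ‖A α M u‖ ^ 2 ≤ (2 * lam) * (8 * lam * T * S) := by
    refine mul_le_mul (by linarith) m1 ?_ (by positivity)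
    exact intervalIntegral.integral_nonneg (by linarith) fun _ _ => by positivity
  have k2 : lam⁻¹ * ∫ u in (1 : ℝ)..(T + 1), ‖A α' M u‖ ^ 2 ≤ lam⁻¹ * (8 * lam * T * (lam ^ 2 * S)) := by
    refine mul_le_mul_of_nonneg_left (m2.trans ?_) (by positivity)
    exact mul_le_mul_of_nonneg_left hS' (by positivity)
  have k3 : lam⁻¹ * (8 * lam * T * (lam ^ 2 * S)) = 8 * lam ^ 2 * T * S := by
    field_simp
  rw [k3] at k2
  nlinarith

theorem hmt (h : S_TUP) : S_HMT := by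
  refine ⟨24, by norm_num, fun T hT P Y m c hP hY => ?_⟩
  have hT1 : (1 : ℝ) ≤ T := by exact_mod_cast hT
  have hl : 0 ≤ Real.log T := Real.log_nonneg hT1
  have e1 : ∀ d : ℕ, ‖∑ p ∈ P, c p * tw d p‖ ^ (2 * m) =
      ‖A (Pool.Agent.Q299.FG.al P m c) (Y ^ m) (d : ℝ)‖ ^ 2 := by
    intro d
    unfold A
    rw [← Pool.Agent.Q299.FG.pow_al P Y m c hP (tw (d : ℝ)) (tw_one _) (tw_mul _), norm_pow,
      ← pow_mul, mul_comm]
  rw [Finset.sum_congr rfl fun d _ => e1 d]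
  refine (disc T (Y ^ m) hT hY _).trans ?_
  have h1 := Pool.Agent.Q299.FG.sum_al P Y m c hP h
  calc 24 * (1 + Real.log T) ^ 2 * T * ∑ n ∈ Icc 1 (Y ^ m), ‖Pool.Agent.Q299.FG.al P m c n‖ ^ 2
      ≤ 24 * (1 + Real.log T) ^ 2 * T * ((Nat.factorial m) * (∑ p ∈ P, ‖c p‖ ^ 2) ^ m) :=
        mul_le_mul_of_nonneg_left h1 (by positivity)
    _ = _ := by ring

end Pool.Agent.Q176.MK.HMT
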